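import Mathlib

/-!
# Tilings by functions with finite-measure support: common definitions
-/

open MeasureTheory Filter Topology Complex

namespace FMT

/-- The mean `(1/T) ∑_{l ∈ L ∩ [0,T)} exp(-2 π i s l)`. -/
noncomputable def mean (L : Set ℝ) (s : ℝ) (T : ℕ) : ℂ :=
  (1 / (T : ℂ)) * ∑ᶠ l ∈ L ∩ Set.Ico (0 : ℝ) T, Complex.exp (-(2 * Real.pi * s * l : ℝ) * I)

/-- The Fourier transform `∫ f(x) exp(-2 π i s x) dx`. -/
noncomputable def ft (f : ℝ → ℂ) (s : ℝ) : ℂ :=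
  ∫ x : ℝ, f x * Complex.exp (-(2 * Real.pi * s * x : ℝ) * I)

/-- Bounded density: the number of points of `L` in `[x, x+1)` is bounded. -/
def BD (L : Set ℝ) : Prop :=
  ∃ C : ℕ, ∀ x : ℝ, (L ∩ Set.Ico x (x + 1)).Finite ∧ (L ∩ Set.Ico x (x + 1)).ncard ≤ C

end FMT
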