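import Mathlib
import Pool.Agent.W418.FMT.Defs
open MeasureTheory Filter Topology Complex

namespace FMT

/-- hypothesis forms of the two inputs -/
def PerTrig : Prop := ∀ (g : ℝ → ℂ) (_ : Integrable g) (τ : ℝ) (_ : 0 < τ) (F : Finset ℤ)
    (_ : ∀ j : ℤ, j ∉ F → ft g (j / τ) = 0),
    ∀ᵐ x : ℝ, ∑' k : ℤ, g (x + k * τ) =
      ∑ j ∈ F, (1 / (τ : ℂ)) * ft g (j / τ) * Complex.exp ((2 * Real.pi * (j / τ) * x : ℝ) * I)

def ExpPoly : Prop := ∀ {ι : Type} [Fintype ι] (ω : ι → ℝ) (_ : Function.Injective ω) (a : ι → ℂ)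
    (X : Set ℝ) (_ : volume X ≠ 0)
    (_ : ∀ x ∈ X, ∑ i, a i * Complex.exp ((2 * Real.pi * ω i * x : ℝ) * I) = 0), ∀ i, a i = 0

/-- the multiplied function -/
noncomputable def tw (f : ℝ → ℂ) (ξ : ℝ) : ℝ → ℂ :=
  fun x => f x * Complex.exp (-(2 * Real.pi * ξ * x : ℝ) * I)

lemma tw_int (f : ℝ → ℂ) (hf : Integrable f) (ξ : ℝ) : Integrable (tw f ξ) := by
  unfold tw
  apply Integrable.mul_bdd (c := 1) hf
  · apply Continuous.aestronglyMeasurable
    fun_prop
  · filter_upwards with x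
    rw [show (-(2 * Real.pi * ξ * x : ℝ) * I : ℂ) = ((-(2 * Real.pi * ξ * x) : ℝ) : ℂ) * I by push_cast; ring]
    rw [Complex.norm_exp_ofReal_mul_I]

lemma ft_tw (f : ℝ → ℂ) (ξ s : ℝ) : ft (tw f ξ) s = ft f (ξ + s) := by
  unfold ft tw
  congr 1
  ext x
  rw [mul_assoc, ← Complex.exp_add]
  congr 2
  push_cast
  ring

/-- node -/
noncomputable def nd (τ ξ : ℝ) : ℂ := Complex.exp (-(2 * Real.pi * ξ * τ : ℝ) * I)

lemma tw_shift (f : ℝ → ℂ) (ξ x τ : ℝ) (k : ℤ) :
    tw f ξ (x + k * τ) = Complex.exp (-(2 * Real.pi * ξ * x : ℝ) * I) * (f (x + k * τ) * nd τ ξ ^ k) := by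
  unfold tw nd
  rw [← Complex.exp_int_mul]
  rw [show Complex.exp (-(2 * Real.pi * ξ * x : ℝ) * I) * (f (x + k * τ) * Complex.exp (k * (-(2 * Real.pi * ξ * τ : ℝ) * I))) =
    f (x + k * τ) * (Complex.exp (-(2 * Real.pi * ξ * x : ℝ) * I) * Complex.exp (k * (-(2 * Real.pi * ξ * τ : ℝ) * I))) by ring]
  rw [← Complex.exp_add]
  congr 2
  push_cast
  ring

lemma nd_inj (τ d : ℝ) (hd : 0 < d) (hτ : τ = 1 / d) (ξ : ℕ → ℝ)
    (hξ : ∀ i j : ℕ, i ≠ j → ∀ m : ℤ, ξ i - ξ j ≠ m * d) :
    Function.Injective (fun i => nd τ (ξ i)) := by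
  intro i j hij
  by_contra hne
  simp only [nd] at hij
  rw [Complex.exp_eq_exp_iff_exists_int] at hij
  obtain ⟨n, hn⟩ := hij
  have h1 : (-(2 * Real.pi * ξ i * τ : ℝ) : ℂ) = (-(2 * Real.pi * ξ j * τ : ℝ) : ℂ) + n * (2 * Real.pi) := by
    have hI : (I : ℂ) ≠ 0 := I_ne_zero
    apply mul_right_cancel₀ hI
    rw [hn]; ring
  have h2 : -(2 * Real.pi * ξ i * τ) = -(2 * Real.pi * ξ j * τ) + n * (2 * Real.pi) := by
    exact_mod_cast h1
  have hpi : Real.pi ≠ 0 := Real.pi_ne_zero
  apply hξ i j hne (-n)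
  rw [hτ] at h2
  have h3 : -(ξ i * (1 / d)) = -(ξ j * (1/d)) + n := by
    have : 2 * Real.pi * (-(ξ i * (1 / d))) = 2 * Real.pi * (-(ξ j * (1/d)) + n) := by linarith
    exact mul_left_cancel₀ (by positivity) this
  field_simp at h3
  push_cast
  linarith

lemma exists_c (N : ℕ) (z : ℕ → ℂ) (K : ℕ) :
    ∃ c : Fin (2 * N + 2) → ℂ, (∃ i, c i ≠ 0) ∧
      ∀ k ∈ Finset.Icc (-(N : ℤ)) N, ∑ i : Fin (2 * N + 2), c i * z (K + i) ^ k = 0 := by
  let T : (Fin (2 * N + 2) → ℂ) →ₗ[ℂ] (↥(Finset.Icc (-(N : ℤ)) N) → ℂ) :=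
    { toFun := fun c k => ∑ i : Fin (2 * N + 2), c i * z (K + i) ^ (k : ℤ)
      map_add' := by
        intro a b; ext k; simp [add_mul, Finset.sum_add_distrib]
      map_smul' := by
        intro a b; ext k; simp [Finset.mul_sum, mul_assoc] }
  have hk : LinearMap.ker T ≠ ⊥ := by
    apply LinearMap.ker_ne_bot_of_finrank_lt
    simp
    omega
  obtain ⟨c, hc, hc0⟩ := Submodule.exists_mem_ne_zero_of_ne_bot hk
  refine ⟨c, ?_, ?_⟩
  · by_contra h
    push Not at h
    exact hc0 (funext h)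
  · intro k hk
    have := congrFun (LinearMap.mem_ker.mp hc) ⟨k, hk⟩
    simpa [T] using this

/-- Key theorem for measurable functions. -/
theorem T1meas (H1 : PerTrig) (H2 : ExpPoly) (f : ℝ → ℂ) (hm : StronglyMeasurable f)
    (hf : Integrable f) (hsupp : volume {x | f x ≠ 0} < ⊤) (d : ℝ) (hd : 0 < d)
    (ξ : ℕ → ℝ) (hξ : ∀ i j : ℕ, i ≠ j → ∀ m : ℤ, ξ i - ξ j ≠ m * d)
    (h : ∀ i, {j : ℤ | ft f (ξ i + j * d) ≠ 0}.Finite) : f =ᵐ[volume] 0 := by
  obtain ⟨τ, hτd⟩ : ∃ τ : ℝ, τ = 1 / d := ⟨_, rfl⟩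
  have hτ : 0 < τ := by rw [hτd]; positivity
  have hjd : ∀ j : ℤ, (j : ℝ) / τ = j * d := by
    intro j; rw [hτd]; field_simp
  -- the sets E k
  let E : ℤ → Set ℝ := fun k => {x | x ∈ Set.Ico 0 τ ∧ f (x + k * τ) ≠ 0}
  have hSm : MeasurableSet {x | f x ≠ 0} := by
    have : {x | f x ≠ 0} = f ⁻¹' {0}ᶜ := by ext; simp
    rw [this]
    exact hm.measurable (measurableSet_singleton 0).compl
  have hEk : ∀ k : ℤ, volume (E k) = volume ({x | f x ≠ 0} ∩ Set.Ico (k * τ) (k * τ + τ)) := by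
    intro k
    have : E k = (fun x => x + k * τ) ⁻¹' ({x | f x ≠ 0} ∩ Set.Ico (k * τ) (k * τ + τ)) := by
      ext x
      simp only [E, Set.mem_ofPred_eq, Set.mem_Ico, Set.mem_preimage, Set.mem_inter_iff]
      constructor
      · rintro ⟨⟨h1, h2⟩, h3⟩
        exact ⟨h3, by linarith, by linarith⟩
      · rintro ⟨h3, h1, h2⟩
        exact ⟨⟨by linarith, by linarith⟩, h3⟩
    rw [this, measure_preimage_add_right]
  have hsum : ∑' k : ℤ, volume (E k) ≠ ⊤ := by
    simp_rw [hEk]
    rw [← measure_iUnion]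
    · exact ((measure_mono (Set.iUnion_subset fun k => Set.inter_subset_left)).trans_lt hsupp).ne
    · intro a b hab
      apply Set.disjoint_left.mpr
      rintro x ⟨_, h1, h2⟩ ⟨_, h3, h4⟩
      apply hab
      have e1 : (a : ℝ) < b + 1 := by
        have : (a : ℝ) * τ < (b + 1) * τ := by linarith
        exact lt_of_mul_lt_mul_right this hτ.le
      have e2 : (b : ℝ) < a + 1 := by
        have : (b : ℝ) * τ < (a + 1) * τ := by linarith
        exact lt_of_mul_lt_mul_right this hτ.le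
      have e1' : a < b + 1 := by exact_mod_cast e1
      have e2' : b < a + 1 := by exact_mod_cast e2
      omega
    · intro k
      exact hSm.inter measurableSet_Ico
  have hfin : ∀ᵐ x : ℝ, {k : ℤ | x ∈ E k}.Finite := ae_finite_setOfPred_mem hsum
  -- X N
  let X : ℕ → Set ℝ := fun N => {x | x ∈ Set.Ico 0 τ ∧ ∀ k : ℤ, (N : ℤ) < |k| → f (x + k * τ) = 0}
  have hbound : ∀ᵐ x : ℝ, x ∈ Set.Ico 0 τ → ∃ N : ℕ, x ∈ X N := by
    filter_upwards [hfin] with x hx hxI
    obtain ⟨M, hM⟩ := hx.bddAbove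
    obtain ⟨M', hM'⟩ := hx.bddBelow
    refine ⟨(max M.toNat (-M').toNat), hxI, ?_⟩
    intro k hk
    by_contra hne
    have hmem : k ∈ {k : ℤ | x ∈ E k} := ⟨hxI, hne⟩
    have a1 := hM hmem
    have a2 := hM' hmem
    push_cast at hk
    rcases abs_cases k with ⟨h1, _⟩ | ⟨h1, _⟩ <;> rw [h1] at hk <;> omega
  have hN : ∃ N, volume (X N) ≠ 0 := by
    by_contra hcon
    push Not at hcon
    have h1 : volume (⋃ N, X N) = 0 := measure_iUnion_null hcon
    have h2 : volume (Set.Ico 0 τ) = 0 := by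
      have h3 : ∀ᵐ x : ℝ, x ∉ ⋃ N, X N := measure_eq_zero_iff_ae_notMem.mp h1
      rw [measure_eq_zero_iff_ae_notMem]
      filter_upwards [h3, hbound] with x hx1 hx2 hx3
      apply hx1
      rw [Set.mem_iUnion]
      exact hx2 hx3
    rw [Real.volume_Ico] at h2
    simp at h2
    linarith
  obtain ⟨N, hN⟩ := hN
  -- per_trig
  have hper : ∀ i, ∀ᵐ x : ℝ, ∑' k : ℤ, tw f (ξ i) (x + k * τ) =
      ∑ j ∈ (h i).toFinset, (1 / (τ : ℂ)) * ft f (ξ i + j * d) *
        Complex.exp ((2 * Real.pi * (j * d) * x : ℝ) * I) := by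
    intro i
    have := H1 (tw f (ξ i)) (tw_int f hf _) τ hτ (h i).toFinset (by
      intro j hj
      rw [hjd, ft_tw]
      simpa using hj)
    filter_upwards [this] with x hx
    rw [hx]
    apply Finset.sum_congr rfl
    intro j _
    rw [hjd, ft_tw]
  have hperall : ∀ᵐ x : ℝ, ∀ i, ∑' k : ℤ, tw f (ξ i) (x + k * τ) =
      ∑ j ∈ (h i).toFinset, (1 / (τ : ℂ)) * ft f (ξ i + j * d) *
        Complex.exp ((2 * Real.pi * (j * d) * x : ℝ) * I) := ae_all_iff.mpr hper
  -- tsum as finite sum on X M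
  have hfs : ∀ (M : ℕ) (x : ℝ), x ∈ X M → ∀ i, ∑' k : ℤ, tw f (ξ i) (x + k * τ) =
      Complex.exp (-(2 * Real.pi * ξ i * x : ℝ) * I) *
        ∑ k ∈ Finset.Icc (-(M : ℤ)) M, f (x + k * τ) * nd τ (ξ i) ^ k := by
    intro M x hx i
    rw [tsum_eq_sum (s := Finset.Icc (-(M : ℤ)) M)]
    · rw [Finset.mul_sum]
      apply Finset.sum_congr rfl
      intro k _
      rw [tw_shift]
    · intro k hk
      rw [tw_shift, hx.2 k, zero_mul, mul_zero]
      by_contra hc
      push Not at hc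
      apply hk
      rw [Finset.mem_Icc]
      exact abs_le.mp hc
  -- the main claim
  have key : ∀ K : ℕ, ∃ i, K ≤ i ∧ ∀ j : ℤ, ft f (ξ i + j * d) = 0 := by
    intro K
    obtain ⟨c, ⟨i0, hi0⟩, hc⟩ := exists_c N (fun i => nd τ (ξ i)) K
    have hz := H2 (ι := Σ i : Fin (2 * N + 2), ↥((h (K + i)).toFinset))
      (fun p => ξ (K + p.1) + (p.2 : ℤ) * d)
      (by
        rintro ⟨i, j, hj⟩ ⟨i', j', hj'⟩ he
        simp only at he
        have hii : i = i' := by
          by_contra hne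
          apply hξ (K + i) (K + i') (by
            intro hcon
            apply hne
            apply Fin.ext
            omega) (j' - j)
          push_cast
          linarith
        subst hii
        have hjj : j = j' := by
          have : (j : ℝ) * d = j' * d := by linarith
          have := mul_right_cancel₀ hd.ne' this
          exact_mod_cast this
        subst hjj
        rfl)
      (fun p => c p.1 * ((1 / (τ : ℂ)) * ft f (ξ (K + p.1) + (p.2 : ℤ) * d)))
      (X N ∩ {x | ∀ i, ∑' k : ℤ, tw f (ξ i) (x + k * τ) =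
      ∑ j ∈ (h i).toFinset, (1 / (τ : ℂ)) * ft f (ξ i + j * d) *
        Complex.exp ((2 * Real.pi * (j * d) * x : ℝ) * I)})
      (by
        intro hcon
        apply hN
        rw [measure_eq_zero_iff_ae_notMem] at hcon ⊢
        filter_upwards [hcon, hperall] with x hx1 hx2 hx3
        exact hx1 ⟨hx3, hx2⟩)
      (by
        rintro x ⟨hxN, hx⟩
        rw [Fintype.sum_sigma]
        have hterm : ∀ i : Fin (2 * N + 2),
            ∑ j : ↥((h (K + i)).toFinset), c i * ((1 / (τ : ℂ)) * ft f (ξ (K + i) + (j : ℤ) * d)) *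
              Complex.exp ((2 * Real.pi * (ξ (K + i) + (j : ℤ) * d) * x : ℝ) * I) =
            c i * ∑ k ∈ Finset.Icc (-(N : ℤ)) N, f (x + k * τ) * nd τ (ξ (K + i)) ^ k := by
          intro i
          have e1 := hfs N x hxN (K + i)
          rw [hx (K + i)] at e1
          have e2 : Complex.exp ((2 * Real.pi * ξ (K + i) * x : ℝ) * I) *
            Complex.exp (-(2 * Real.pi * ξ (K + i) * x : ℝ) * I) = 1 := by
            rw [← Complex.exp_add]
            rw [show ((2 * Real.pi * ξ (K + i) * x : ℝ) * I + -(2 * Real.pi * ξ (K + i) * x : ℝ) * I : ℂ) = 0 by ring]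
            exact Complex.exp_zero
          have e3 : ∑ k ∈ Finset.Icc (-(N : ℤ)) N, f (x + k * τ) * nd τ (ξ (K + i)) ^ k =
            Complex.exp ((2 * Real.pi * ξ (K + i) * x : ℝ) * I) *
            ∑ j ∈ (h (K + i)).toFinset, (1 / (τ : ℂ)) * ft f (ξ (K + i) + j * d) *
              Complex.exp ((2 * Real.pi * (j * d) * x : ℝ) * I) := by
            rw [e1, ← mul_assoc, e2, one_mul]
          rw [e3, Finset.mul_sum, Finset.mul_sum]
          rw [Finset.sum_coe_sort ((h (K + i)).toFinset) (fun j : ℤ => c i * ((1 / (τ : ℂ)) * ft f (ξ (K + i) + (j : ℤ) * d)) *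
              Complex.exp ((2 * Real.pi * (ξ (K + i) + (j : ℤ) * d) * x : ℝ) * I))]
          apply Finset.sum_congr rfl
          intro j _
          have e4 : Complex.exp ((2 * Real.pi * (ξ (K + i) + (j : ℤ) * d) * x : ℝ) * I) =
            Complex.exp ((2 * Real.pi * ξ (K + i) * x : ℝ) * I) *
              Complex.exp ((2 * Real.pi * (j * d) * x : ℝ) * I) := by
            rw [← Complex.exp_add]
            congr 1
            push_cast
            ring
          rw [e4]
          ring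
        simp only [hterm]
        simp_rw [Finset.mul_sum]
        rw [Finset.sum_comm]
        apply Finset.sum_eq_zero
        intro k hk
        have := hc k hk
        calc ∑ i : Fin (2 * N + 2), c i * (f (x + k * τ) * nd τ (ξ (K + i)) ^ k)
            = f (x + k * τ) * ∑ i : Fin (2 * N + 2), c i * nd τ (ξ (K + i)) ^ k := by
              rw [Finset.mul_sum]
              apply Finset.sum_congr rfl
              intro i _
              ring
          _ = 0 := by rw [this, mul_zero])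
    refine ⟨K + i0, by omega, ?_⟩
    intro j
    by_contra hne
    have hj : j ∈ (h (K + i0)).toFinset := by simpa using hne
    have := hz ⟨i0, j, hj⟩
    simp only [mul_eq_zero, one_div, inv_eq_zero, ofReal_eq_zero] at this
    rcases this with h1 | h1 | h1
    · exact hi0 h1
    · exact hτ.ne' h1
    · exact hne h1
  -- conclusion
  have hz : ∀ᵐ x : ℝ, ∀ i, (∀ j : ℤ, ft f (ξ i + j * d) = 0) → ∑' k : ℤ, tw f (ξ i) (x + k * τ) = 0 := by
    filter_upwards [hperall] with x hx i hi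
    rw [hx i]
    apply Finset.sum_eq_zero
    intro j _
    rw [hi j]; ring
  have hconc : ∀ᵐ x : ℝ, x ∈ Set.Ico 0 τ → ∀ k : ℤ, f (x + k * τ) = 0 := by
    filter_upwards [hbound, hz] with x hb hz' hxI k
    obtain ⟨M, hM⟩ := hb hxI
    by_cases hk : (M : ℤ) < |k|
    · exact hM.2 k hk
    push Not at hk
    have hk' := abs_le.mp hk
    -- polynomial
    let p : Polynomial ℂ := ∑ n ∈ Finset.range (2 * M + 1), Polynomial.monomial n (f (x + ((n : ℤ) - M : ℤ) * τ))
    have hroot : ∀ i, (∀ j : ℤ, ft f (ξ i + j * d) = 0) → p.IsRoot (nd τ (ξ i)) := by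
      intro i hi
      have e1 := hfs M x hM i
      rw [hz' i hi] at e1
      have e2 : ∑ k ∈ Finset.Icc (-(M : ℤ)) M, f (x + k * τ) * nd τ (ξ i) ^ k = 0 := by
        rcases mul_eq_zero.mp e1.symm with h1 | h1
        · exact absurd h1 (Complex.exp_ne_zero _)
        · exact h1
      have hnd : nd τ (ξ i) ≠ 0 := Complex.exp_ne_zero _
      rw [Polynomial.IsRoot.def]
      simp only [p, Polynomial.eval_finsetSum, Polynomial.eval_monomial]
      have e3 : ∑ n ∈ Finset.range (2 * M + 1), f (x + ((n : ℤ) - M : ℤ) * τ) * nd τ (ξ i) ^ n =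
          nd τ (ξ i) ^ (M : ℤ) * ∑ k ∈ Finset.Icc (-(M : ℤ)) M, f (x + k * τ) * nd τ (ξ i) ^ k := by
        rw [Finset.mul_sum]
        apply Finset.sum_bij' (fun (n : ℕ) _ => (n : ℤ) - M) (fun (k : ℤ) _ => (k + M).toNat)
        · intro n hn
          rw [Finset.mem_range] at hn
          rw [Finset.mem_Icc]
          omega
        · intro k hk
          rw [Finset.mem_Icc] at hk
          rw [Finset.mem_range]
          omega
        · intro n hn
          simp
        · intro k hk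
          rw [Finset.mem_Icc] at hk
          rw [Int.toNat_of_nonneg (by omega)]
          ring
        · intro n hn
          rw [show nd τ (ξ i) ^ (M : ℤ) * (f (x + ((n : ℤ) - M : ℤ) * τ) * nd τ (ξ i) ^ ((n : ℤ) - M)) =
            f (x + ((n : ℤ) - M : ℤ) * τ) * (nd τ (ξ i) ^ (M : ℤ) * nd τ (ξ i) ^ ((n : ℤ) - M)) by ring]
          rw [← zpow_add₀ hnd]
          rw [show (M : ℤ) + ((n : ℤ) - M) = n by ring, zpow_natCast]
      rw [e3, e2, mul_zero]
    have hp0 : p = 0 := by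
      apply Polynomial.eq_zero_of_infinite_isRoot
      have hinf : {i | ∀ j : ℤ, ft f (ξ i + j * d) = 0}.Infinite := by
        rw [Set.infinite_iff_exists_gt]
        intro a
        obtain ⟨i, hi1, hi2⟩ := key (a + 1)
        exact ⟨i, hi2, by omega⟩
      apply (hinf.image (f := fun i => nd τ (ξ i)) ((nd_inj τ d hd hτd ξ hξ).injOn)).mono
      rintro _ ⟨i, hi, rfl⟩
      exact hroot i hi
    have hcoef : p.coeff ((k + M).toNat) = f (x + k * τ) := by
      simp only [p, Polynomial.finsetSum_coeff, Polynomial.coeff_monomial]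
      rw [Finset.sum_eq_single ((k + M).toNat)]
      · rw [if_pos rfl, Int.toNat_of_nonneg (by omega)]
        congr 2
        push_cast
        ring
      · intro b _ hb
        rw [if_neg hb]
      · intro hb
        exfalso
        apply hb
        rw [Finset.mem_range]
        omega
    rw [← hcoef, hp0, Polynomial.coeff_zero]
  -- from the fundamental domain to the line
  have hk : ∀ k : ℤ, ∀ᵐ x : ℝ, x - k * τ ∈ Set.Ico 0 τ → f x = 0 := by
    intro k
    have hqmp : Filter.Tendsto (fun x : ℝ => x - k * τ) (ae volume) (ae volume) := by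
      have := (measurePreserving_sub_right (volume : Measure ℝ) (k * τ)).quasiMeasurePreserving.tendsto_ae
      exact this
    have := hqmp.eventually hconc
    filter_upwards [this] with x hx hxI
    have := hx hxI k
    simpa using this
  filter_upwards [ae_all_iff.mpr hk] with x hx
  apply hx ⌊x / τ⌋
  constructor
  · have := Int.floor_le (x / τ)
    rw [le_div_iff₀ hτ] at this
    linarith
  · have := Int.lt_floor_add_one (x / τ)
    rw [div_lt_iff₀ hτ] at this
    linarith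

theorem T1 (H1 : PerTrig) (H2 : ExpPoly) (f : ℝ → ℂ)
    (hf : Integrable f) (hsupp : volume {x | f x ≠ 0} < ⊤) (d : ℝ) (hd : 0 < d)
    (ξ : ℕ → ℝ) (hξ : ∀ i j : ℕ, i ≠ j → ∀ m : ℤ, ξ i - ξ j ≠ m * d)
    (h : ∀ i, {j : ℤ | ft f (ξ i + j * d) ≠ 0}.Finite) : f =ᵐ[volume] 0 := by
  have hae : f =ᵐ[volume] hf.1.mk f := hf.1.ae_eq_mk
  have hft : ∀ s, ft (hf.1.mk f) s = ft f s := by
    intro s
    unfold ft
    apply integral_congr_ae
    filter_upwards [hae] with x hx
    rw [hx]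
  refine hae.trans (T1meas H1 H2 _ hf.1.stronglyMeasurable_mk (hf.congr hae) ?_ d hd ξ hξ ?_)
  · refine lt_of_eq_of_lt ?_ hsupp
    apply measure_congr
    filter_upwards [hae] with x hx
    have : (hf.1.mk f x ≠ 0) = (f x ≠ 0) := by rw [hx]
    exact this
  · intro i
    simp only [hft]
    exact h i

end FMT
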