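import Mathlib
import Pool.Agent.W418.FMT.Defs

set_option autoImplicit false

open MeasureTheory Filter Topology Complex

namespace FMT

theorem fin_Ico {L : Set ℝ} {C : ℕ}
    (h : ∀ x : ℝ, (L ∩ Set.Ico x (x + 1)).Finite ∧ (L ∩ Set.Ico x (x + 1)).ncard ≤ C)
    (a : ℝ) (k : ℕ) :
    (L ∩ Set.Ico a (a + k)).Finite ∧ (L ∩ Set.Ico a (a + k)).ncard ≤ C * k := by
  induction k with
  | zero => simp
  | succ k ih =>
    have hsub : L ∩ Set.Ico a (a + ((k + 1 : ℕ) : ℝ)) ⊆
        (L ∩ Set.Ico a (a + k)) ∪ (L ∩ Set.Ico (a + k) (a + k + 1)) := by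
      rintro x ⟨hx, h1, h2⟩
      push_cast at h2
      rcases lt_or_ge x (a + k) with h3 | h3
      · exact Or.inl ⟨hx, h1, h3⟩
      · exact Or.inr ⟨hx, h3, by linarith⟩
    have hfin := ih.1.union (h (a + k)).1
    refine ⟨hfin.subset hsub, ?_⟩
    calc (L ∩ Set.Ico a (a + ((k + 1 : ℕ) : ℝ))).ncard ≤ _ := Set.ncard_le_ncard hsub hfin
      _ ≤ _ := Set.ncard_union_le _ _
      _ ≤ C * k + C := Nat.add_le_add ih.2 (h _).2
      _ = C * (k + 1) := by ring

theorem fin_Ico' {L : Set ℝ} {C : ℕ}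
    (h : ∀ x : ℝ, (L ∩ Set.Ico x (x + 1)).Finite ∧ (L ∩ Set.Ico x (x + 1)).ncard ≤ C)
    (a b : ℝ) :
    (L ∩ Set.Ico a b).Finite ∧ (L ∩ Set.Ico a b).ncard ≤ C * ⌈b - a⌉₊ := by
  have hsub : L ∩ Set.Ico a b ⊆ L ∩ Set.Ico a (a + (⌈b - a⌉₊ : ℕ)) := by
    rintro x ⟨hx, h1, h2⟩
    refine ⟨hx, h1, ?_⟩
    have := Nat.le_ceil (b - a)
    linarith
  obtain ⟨h1, h2⟩ := fin_Ico h a ⌈b - a⌉₊
  exact ⟨h1.subset hsub, (Set.ncard_le_ncard hsub h1).trans h2⟩

theorem countable_L {L : Set ℝ} {C : ℕ}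
    (h : ∀ x : ℝ, (L ∩ Set.Ico x (x + 1)).Finite ∧ (L ∩ Set.Ico x (x + 1)).ncard ≤ C) :
    L.Countable := by
  have : L ⊆ ⋃ n : ℤ, L ∩ Set.Ico (n : ℝ) (n + 1) := by
    intro x hx
    rw [Set.mem_iUnion]
    exact ⟨⌊x⌋, hx, Int.floor_le x, Int.lt_floor_add_one x⟩
  exact (Set.countable_iUnion (fun n : ℤ => (h n).1.countable)).mono this

theorem finsub {L A : Set ℝ} (hA : (L ∩ A).Finite) : {l : L | (l : ℝ) ∈ A}.Finite := by
  apply Set.Finite.of_finite_image (f := fun l : L => (l : ℝ)) _ (Subtype.val_injective.injOn)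
  apply hA.subset
  rintro _ ⟨l, hl, rfl⟩
  exact ⟨l.2, hl⟩

theorem card_finsub {L A : Set ℝ} (hA : (L ∩ A).Finite) :
    (finsub hA).toFinset.card = (L ∩ A).ncard := by
  rw [← Set.ncard_eq_toFinset_card _ (finsub hA)]
  rw [← Set.ncard_image_of_injective _ (Subtype.val_injective (p := fun x => x ∈ L))]
  congr 1
  ext x
  constructor
  · rintro ⟨l, hl, rfl⟩
    exact ⟨l.2, hl⟩
  · rintro ⟨h1, h2⟩
    exact ⟨⟨x, h1⟩, h2, rfl⟩

theorem norm_tsum_le {L A : Set ℝ} (hA : (L ∩ A).Finite) (u : L → ℂ)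
    (h0 : ∀ l : L, (l : ℝ) ∉ A → u l = 0) (h1 : ∀ l, ‖u l‖ ≤ 1) :
    ‖∑' l, u l‖ ≤ (L ∩ A).ncard := by
  rw [tsum_eq_sum (s := (finsub hA).toFinset) (by
    intro l hl
    apply h0
    simpa using hl)]
  calc ‖∑ l ∈ (finsub hA).toFinset, u l‖ ≤ ∑ l ∈ (finsub hA).toFinset, ‖u l‖ := norm_sum_le _ _
    _ ≤ ∑ l ∈ (finsub hA).toFinset, (1 : ℝ) := Finset.sum_le_sum (fun l _ => h1 l)
    _ = (L ∩ A).ncard := by rw [Finset.sum_const, card_finsub hA]; simp

theorem summ {L A : Set ℝ} (hA : (L ∩ A).Finite) (u : L → ℂ)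
    (h0 : ∀ l : L, (l : ℝ) ∉ A → u l = 0) : Summable u :=
  summable_of_ne_finset_zero (s := (finsub hA).toFinset) (by
    intro l hl
    apply h0
    simpa using hl)

/-- the character -/
noncomputable def e (s x : ℝ) : ℂ := Complex.exp (-(2 * Real.pi * s * x : ℝ) * I)

theorem norm_e (s x : ℝ) : ‖e s x‖ = 1 := by
  have h := Complex.norm_exp_ofReal_mul_I (-(2 * Real.pi * s * x))
  unfold e
  rw [Complex.ofReal_neg] at h
  exact h

theorem e_add (s x y : ℝ) : e s (x + y) = e s x * e s y := by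
  unfold e
  rw [← Complex.exp_add]
  congr 1
  push_cast
  ring

theorem e_cont (s : ℝ) : Continuous (e s) := by
  unfold e
  fun_prop

noncomputable def S (L : Set ℝ) (s a b : ℝ) : ℂ :=
  ∑' l : L, if a ≤ (l : ℝ) ∧ (l : ℝ) < b then e s l else 0

theorem S_norm {L : Set ℝ} {C : ℕ}
    (h : ∀ x : ℝ, (L ∩ Set.Ico x (x + 1)).Finite ∧ (L ∩ Set.Ico x (x + 1)).ncard ≤ C)
    (s a b : ℝ) : ‖S L s a b‖ ≤ C * ⌈b - a⌉₊ := by
  obtain ⟨h1, h2⟩ := fin_Ico' h a b
  refine (norm_tsum_le h1 _ ?_ ?_).trans (by exact_mod_cast h2)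
  · intro l hl
    rw [if_neg]
    exact fun hc => hl hc
  · intro l
    split_ifs
    · rw [norm_e]
    · simp

theorem S_diff {L : Set ℝ} {C : ℕ}
    (h : ∀ x : ℝ, (L ∩ Set.Ico x (x + 1)).Finite ∧ (L ∩ Set.Ico x (x + 1)).ncard ≤ C)
    (s y T : ℝ) : ‖S L s (-y) (T - y) - S L s 0 T‖ ≤ 2 * (C * ⌈2 * |y|⌉₊) := by
  have hy1 := neg_abs_le y
  have hy2 := le_abs_self y
  obtain ⟨a1, a2⟩ := fin_Ico' h (-|y|) |y|
  obtain ⟨b1, b2⟩ := fin_Ico' h (T - |y|) (T + |y|)
  have e1 : |y| - -|y| = 2 * |y| := by ring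
  have e2 : T + |y| - (T - |y|) = 2 * |y| := by ring
  rw [e1] at a2
  rw [e2] at b2
  set A : Set ℝ := Set.Ico (-|y|) |y| ∪ Set.Ico (T - |y|) (T + |y|) with hA
  have hAf : (L ∩ A).Finite := by
    rw [hA, Set.inter_union_distrib_left]
    exact a1.union b1
  have hAc : (L ∩ A).ncard ≤ 2 * (C * ⌈2 * |y|⌉₊) := by
    rw [hA, Set.inter_union_distrib_left]
    refine (Set.ncard_union_le _ _).trans ?_
    omega
  have hs1 : Summable (fun l : L => if -y ≤ (l : ℝ) ∧ (l : ℝ) < T - y then e s l else 0) :=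
    summ (fin_Ico' h (-y) (T - y)).1 _ (fun l hl => if_neg (fun hc => hl hc))
  have hs2 : Summable (fun l : L => if 0 ≤ (l : ℝ) ∧ (l : ℝ) < T then e s l else 0) :=
    summ (fin_Ico' h 0 T).1 _ (fun l hl => if_neg (fun hc => hl hc))
  unfold S
  rw [← hs1.tsum_sub hs2]
  refine (norm_tsum_le hAf _ ?_ ?_).trans (by exact_mod_cast hAc)
  · intro l hl
    rw [hA, Set.mem_union, Set.mem_Ico, Set.mem_Ico] at hl
    push Not at hl
    obtain ⟨c1, c2⟩ := hl
    have key : (-y ≤ (l : ℝ) ∧ (l : ℝ) < T - y) ↔ (0 ≤ (l : ℝ) ∧ (l : ℝ) < T) := by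
      constructor
      · rintro ⟨p1, p2⟩
        constructor
        · by_contra hc
          push Not at hc
          have := c1 (by linarith)
          linarith
        · by_contra hc
          push Not at hc
          have := c2 (by linarith)
          linarith
      · rintro ⟨p1, p2⟩
        constructor
        · by_contra hc
          push Not at hc
          have := c1 (by linarith)
          linarith
        · by_contra hc
          push Not at hc
          have := c2 (by linarith)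
          linarith
    simp only [key, sub_self]
  · intro l
    split_ifs <;> simp [norm_e]



theorem S_mean {L : Set ℝ} {C : ℕ}
    (h : ∀ x : ℝ, (L ∩ Set.Ico x (x + 1)).Finite ∧ (L ∩ Set.Ico x (x + 1)).ncard ≤ C)
    (s : ℝ) (T : ℕ) : (∑ᶠ l ∈ L ∩ Set.Ico (0 : ℝ) T,
      Complex.exp (-(2 * Real.pi * s * l : ℝ) * I)) = S L s 0 T := by
  classical
  have hA := (fin_Ico' h 0 T).1
  rw [finsum_mem_eq_finite_toFinset_sum _ hA]
  unfold S
  rw [tsum_eq_sum (s := (finsub hA).toFinset) (by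
    intro l hl
    rw [if_neg]
    intro hc
    apply hl
    simpa using hc)]
  symm
  apply Finset.sum_bij (fun (l : L) _ => (l : ℝ))
  · intro l hl
    rw [Set.Finite.mem_toFinset] at hl ⊢
    exact ⟨l.2, hl⟩
  · intro a _ b _ hab
    exact Subtype.ext hab
  · intro b hb
    rw [Set.Finite.mem_toFinset] at hb
    exact ⟨⟨b, hb.1⟩, by rw [Set.Finite.mem_toFinset]; exact hb.2, rfl⟩
  · intro l hl
    rw [Set.Finite.mem_toFinset] at hl
    have hl' : (0 : ℝ) ≤ l ∧ (l : ℝ) < T := hl
    rw [if_pos hl']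
    rfl

/-- the exchange identity -/
theorem exch {L : Set ℝ} {C : ℕ}
    (h : ∀ x : ℝ, (L ∩ Set.Ico x (x + 1)).Finite ∧ (L ∩ Set.Ico x (x + 1)).ncard ≤ C)
    (s : ℝ) (T : ℝ) (f : ℝ → ℂ) (hf : Integrable f) (w : ℂ)
    (htile : ∀ᵐ x : ℝ, Summable (fun l : L => f (x - l)) ∧ ∑' l : L, f (x - l) = w) :
    ∫ y : ℝ, f y * e s y * S L s (-y) (T - y) =
      ∫ x : ℝ, (if 0 ≤ x ∧ x < T then w * e s x else 0) := by
  classical
  haveI : Countable L := (countable_L h).to_subtype
  set H : L → ℝ → ℂ := fun l x => if 0 ≤ x ∧ x < T then f (x - l) * e s x else 0 with hH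
  set F : L → ℝ → ℂ := fun l y => if -y ≤ (l : ℝ) ∧ (l : ℝ) < T - y then f y * e s y * e s l else 0
    with hF
  have hFH : ∀ l y, F l y = H l (y + l) := by
    intro l y
    simp only [hF, hH]
    have key : (-y ≤ (l : ℝ) ∧ (l : ℝ) < T - y) ↔ (0 ≤ y + l ∧ y + l < T) := by
      constructor <;> rintro ⟨p1, p2⟩ <;> constructor <;> linarith
    simp only [key]
    split_ifs
    · rw [e_add, add_sub_cancel_right]; ring
    · rfl
  have hset : MeasurableSet {x : ℝ | 0 ≤ x ∧ x < T} := measurableSet_Ico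
  have hHm : ∀ l, AEStronglyMeasurable (H l) volume := by
    intro l
    have h1 : AEStronglyMeasurable (fun x => f (x - l) * e s x) volume :=
      (hf.comp_sub_right (l : ℝ)).aestronglyMeasurable.mul (e_cont s).aestronglyMeasurable
    have h2 := h1.indicator hset
    refine h2.congr (Eventually.of_forall fun x => ?_)
    simp only [hH, Set.indicator_apply, Set.mem_setOf_eq]
  have hFm : ∀ l, AEStronglyMeasurable (F l) volume := by
    intro l
    have hset2 : MeasurableSet {y : ℝ | -y ≤ (l : ℝ) ∧ (l : ℝ) < T - y} := by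
      have : {y : ℝ | -y ≤ (l : ℝ) ∧ (l : ℝ) < T - y} = Set.Ico (-(l : ℝ)) (T - l) := by
        ext y
        simp only [Set.mem_setOf_eq, Set.mem_Ico]
        constructor <;> rintro ⟨p1, p2⟩ <;> constructor <;> linarith
      rw [this]; exact measurableSet_Ico
    have h1 : AEStronglyMeasurable (fun y => f y * e s y * e s l) volume :=
      (hf.aestronglyMeasurable.mul (e_cont s).aestronglyMeasurable).mul_const _
    have h2 := h1.indicator hset2
    refine h2.congr (Eventually.of_forall fun x => ?_)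
    simp only [hF, Set.indicator_apply, Set.mem_setOf_eq]
  have hlint : ∀ l, ∫⁻ x, ‖H l x‖ₑ = ∫⁻ y, ‖F l y‖ₑ := by
    intro l
    rw [← lintegral_add_right_eq_self (fun x => ‖H l x‖ₑ) (l : ℝ)]
    simp only [hFH]
  have hint : ∀ l, ∫ x, H l x = ∫ y, F l y := by
    intro l
    rw [← integral_add_right_eq_self (fun x => H l x) (l : ℝ)]
    simp only [hFH]
  have hfin : ∑' l, ∫⁻ y, ‖F l y‖ₑ ≠ ⊤ := by
    rw [← lintegral_tsum (fun l => (hFm l).enorm)]
    have hb : ∀ y, ∑' l, ‖F l y‖ₑ ≤ ‖f y‖ₑ * (C * ⌈T⌉₊ : ℕ) := by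
      intro y
      obtain ⟨q1, q2⟩ := fin_Ico' h (-y) (T - y)
      rw [show T - y - -y = T by ring] at q2
      rw [tsum_eq_sum (s := (finsub q1).toFinset) (by
        intro l hl
        simp only [hF]
        rw [if_neg]
        · simp
        · intro hc
          apply hl
          simpa using hc)]
      calc ∑ l ∈ (finsub q1).toFinset, ‖F l y‖ₑ
          ≤ ∑ l ∈ (finsub q1).toFinset, ‖f y‖ₑ := by
            apply Finset.sum_le_sum
            intro l _
            simp only [hF]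
            split_ifs
            · rw [enorm_mul, enorm_mul]
              have e1 : ‖e s y‖ₑ = 1 := by
                rw [← ofReal_norm_eq_enorm, norm_e]; simp
              have e2 : ‖e s l‖ₑ = 1 := by
                rw [← ofReal_norm_eq_enorm, norm_e]; simp
              rw [e1, e2, mul_one, mul_one]
            · simp
        _ = ‖f y‖ₑ * ((finsub q1).toFinset.card : ENNReal) := by
            rw [Finset.sum_const, nsmul_eq_mul, mul_comm]
        _ ≤ ‖f y‖ₑ * (C * ⌈T⌉₊ : ℕ) := by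
            gcongr
            rw [card_finsub q1]
            exact_mod_cast q2
    refine ne_top_of_le_ne_top ?_ (lintegral_mono hb)
    rw [lintegral_mul_const' _ _ (ENNReal.natCast_ne_top _)]
    exact ENNReal.mul_ne_top hf.hasFiniteIntegral.ne (ENNReal.natCast_ne_top _)
  have hfinH : ∑' l, ∫⁻ x, ‖H l x‖ₑ ≠ ⊤ := by
    simp only [hlint]; exact hfin
  have I1 := integral_tsum hFm hfin
  have I2 := integral_tsum hHm hfinH
  have I3 : ∫ y, ∑' l, F l y = ∫ x, ∑' l, H l x := by
    rw [I1, I2]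
    exact tsum_congr (fun l => (hint l).symm)
  have I4 : ∀ y, ∑' l, F l y = f y * e s y * S L s (-y) (T - y) := by
    intro y
    unfold S
    rw [← tsum_mul_left]
    apply tsum_congr
    intro l
    simp only [hF]
    split_ifs <;> simp
  have I5 : ∀ᵐ x : ℝ, ∑' l, H l x = (if 0 ≤ x ∧ x < T then w * e s x else 0) := by
    filter_upwards [htile] with x hx
    simp only [hH]
    split_ifs
    · rw [tsum_mul_right, hx.2]
    · simp
  rw [← integral_congr_ae I5, ← I3]
  simp only [I4]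

theorem bound_osc (s : ℝ) (hs : s ≠ 0) (w : ℂ) : ∃ K : ℝ, ∀ T : ℝ, 0 ≤ T →
    ‖∫ x : ℝ, (if 0 ≤ x ∧ x < T then w * e s x else 0)‖ ≤ K := by
  set c : ℂ := -(2 * Real.pi * s : ℝ) * I with hc
  have hc0 : c ≠ 0 := by
    rw [hc]
    apply mul_ne_zero
    · rw [neg_ne_zero]
      have : (2 * Real.pi * s : ℝ) ≠ 0 := by positivity
      exact_mod_cast this
    · exact I_ne_zero
  refine ⟨‖w‖ * (2 / ‖c‖), fun T hT => ?_⟩
  have h1 : ∫ x : ℝ, (if 0 ≤ x ∧ x < T then w * e s x else 0) = ∫ x in Set.Ico 0 T, w * e s x := by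
    rw [← integral_indicator measurableSet_Ico]
    simp only [Set.indicator_apply, Set.mem_Ico]
  rw [h1, integral_Ico_eq_integral_Ioc, ← intervalIntegral.integral_of_le hT,
    intervalIntegral.integral_const_mul]
  have h2 : ∫ x in (0 : ℝ)..T, e s x = ∫ x in (0 : ℝ)..T, Complex.exp (c * x) := by
    apply intervalIntegral.integral_congr
    intro x _
    simp only [e, hc]
    congr 1
    push_cast
    ring
  rw [h2, integral_exp_mul_complex hc0, norm_mul, norm_div]
  gcongr
  refine (norm_sub_le _ _).trans ?_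
  have n1 : ‖Complex.exp (c * (T : ℂ))‖ = 1 := by
    have := norm_e s T
    rw [← this]
    congr 1
    simp only [e, hc]
    congr 1
    push_cast
    ring
  have n2 : ‖Complex.exp (c * ((0 : ℝ) : ℂ))‖ = 1 := by simp
  rw [n1, n2]
  norm_num

theorem link (L : Set ℝ) (hL : BD L) (s : ℝ) (hs : s ≠ 0)
    (hM : ¬ Tendsto (mean L s) atTop (𝓝 0)) (f : ℝ → ℂ) (hf : Integrable f) (w : ℂ)
    (htile : ∀ᵐ x : ℝ, Summable (fun l : L => f (x - l)) ∧ ∑' l : L, f (x - l) = w) :
    ft f s = 0 := by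
  obtain ⟨C, h⟩ := hL
  obtain ⟨K, hK⟩ := bound_osc s hs w
  by_contra hne
  apply hM
  -- the difference tends to zero
  have hmean : ∀ T : ℕ, mean L s T = (1 / (T : ℂ)) * S L s 0 T := by
    intro T
    unfold mean
    rw [S_mean h]
  have hceil : ∀ T : ℕ, (⌈(T : ℝ)⌉₊ : ℝ) = T := by
    intro T
    rw [Nat.ceil_natCast]
  set G : ℕ → ℝ → ℂ := fun T y =>
    f y * e s y * ((1 / (T : ℂ)) * (S L s (-y) (T - y) - S L s 0 T)) with hG
  have hSmeas : ∀ T : ℕ, AEStronglyMeasurable (fun y => f y * e s y * S L s (-y) (T - y)) volume := by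
    intro T
    haveI : Countable L := (countable_L h).to_subtype
    have hfe : AEStronglyMeasurable (fun y => f y * e s y) volume :=
      hf.aestronglyMeasurable.mul (e_cont s).aestronglyMeasurable
    refine hfe.mul ?_
    have hm : Measurable (fun y : ℝ => S L s (-y) (T - y)) := by
      unfold S
      have hmm : ∀ l : L, Measurable (fun y : ℝ =>
          if -y ≤ (l : ℝ) ∧ (l : ℝ) < T - y then e s l else 0) := by
        intro l
        refine Measurable.ite ?_ measurable_const measurable_const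
        have : {y : ℝ | -y ≤ (l : ℝ) ∧ (l : ℝ) < T - y} = Set.Ico (-(l : ℝ)) (T - l) := by
          ext y
          simp only [Set.mem_setOf_eq, Set.mem_Ico]
          constructor <;> rintro ⟨p1, p2⟩ <;> constructor <;> linarith
        rw [this]; exact measurableSet_Ico
      exact Measurable.tsum hmm
    exact hm.aestronglyMeasurable
  have hlim : Tendsto (fun T : ℕ => ∫ y, G T y) atTop (𝓝 (∫ _y : ℝ, (0 : ℂ))) := by
    apply tendsto_integral_of_dominated_convergence (fun y => ‖f y‖ * (2 * C))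
    · intro T
      have h1 := (hSmeas T).sub
        ((hf.aestronglyMeasurable.mul (e_cont s).aestronglyMeasurable).mul_const (S L s 0 T))
      have h2 := h1.const_mul (1 / (T : ℂ))
      refine h2.congr (Eventually.of_forall fun y => ?_)
      simp only [hG, Pi.sub_apply, Pi.mul_apply]
      ring
    · exact hf.norm.mul_const _
    · intro T
      refine Eventually.of_forall fun y => ?_
      simp only [hG]
      rw [norm_mul, norm_mul, norm_e, mul_one]
      gcongr
      rcases Nat.eq_zero_or_pos T with h0 | h0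
      · subst h0; simp
      have hT : (0 : ℝ) < T := by exact_mod_cast h0
      rw [norm_mul, norm_div, norm_one, Complex.norm_natCast]
      have b1 := S_norm h s (-y) (T - y)
      have b2 := S_norm h s 0 T
      rw [show (T : ℝ) - y - -y = T by ring, hceil] at b1
      rw [sub_zero, hceil] at b2
      have b3 := norm_sub_le (S L s (-y) (T - y)) (S L s 0 T)
      rw [one_div, inv_mul_le_iff₀ hT]
      nlinarith
    · refine Eventually.of_forall fun y => ?_
      have hz : Tendsto (fun T : ℕ => ‖f y‖ * ((2 * (C * ⌈2 * |y|⌉₊)) / (T : ℝ))) atTop (𝓝 0) := by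
        have := (tendsto_const_div_atTop_nhds_zero_nat (2 * ((C : ℝ) * ⌈2 * |y|⌉₊))).const_mul ‖f y‖
        simpa using this
      apply squeeze_zero_norm _ hz
      intro T
      simp only [hG]
      rw [norm_mul, norm_mul, norm_e, mul_one, norm_mul, norm_div, norm_one, Complex.norm_natCast]
      gcongr
      rw [one_div, div_eq_inv_mul]
      gcongr
      exact S_diff h s y T
  rw [integral_zero] at hlim
  have hval : ∀ T : ℕ, ∫ y, G T y =
      (1 / (T : ℂ)) * (∫ x : ℝ, (if 0 ≤ x ∧ x < (T : ℝ) then w * e s x else 0)) -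
        ft f s * mean L s T := by
    intro T
    have hi1 : Integrable (fun y => f y * e s y * S L s (-y) (T - y)) := by
      refine (hf.norm.mul_const (C * (T : ℝ))).mono' (hSmeas T) (Eventually.of_forall fun y => ?_)
      rw [norm_mul, norm_mul, norm_e, mul_one]
      have b1 := S_norm h s (-y) (T - y)
      rw [show (T : ℝ) - y - -y = T by ring, hceil] at b1
      gcongr
    have hi2 : Integrable (fun y => f y * e s y * S L s 0 T) := by
      have : Integrable (fun y => f y * e s y) := by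
        refine hf.norm.mono' (hf.aestronglyMeasurable.mul (e_cont s).aestronglyMeasurable)
          (Eventually.of_forall fun y => ?_)
        rw [norm_mul, norm_e, mul_one]
      exact this.mul_const _
    have h1 : ∀ y, G T y = (1 / (T : ℂ)) *
        (f y * e s y * S L s (-y) (T - y) - f y * e s y * S L s 0 T) := by
      intro y
      simp only [hG]
      ring
    simp only [h1]
    rw [integral_const_mul, integral_sub hi1 hi2, exch h s T f hf w htile, integral_mul_const,
      hmean, mul_sub]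
    have h2 : ∫ y, f y * e s y = ft f s := rfl
    rw [h2]
    ring
  have hosc : Tendsto (fun T : ℕ => (1 / (T : ℂ)) *
      (∫ x : ℝ, (if 0 ≤ x ∧ x < (T : ℝ) then w * e s x else 0))) atTop (𝓝 0) := by
    apply squeeze_zero_norm _ (tendsto_const_div_atTop_nhds_zero_nat K)
    intro T
    rw [norm_mul, norm_div, norm_one, Complex.norm_natCast, one_div, div_eq_inv_mul]
    gcongr
    exact hK T (Nat.cast_nonneg T)
  have hprod : Tendsto (fun T : ℕ => ft f s * mean L s T) atTop (𝓝 0) := by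
    have := hosc.sub hlim
    rw [sub_zero] at this
    refine this.congr fun T => ?_
    rw [hval T]
    ring
  have hfinal := hprod.const_mul (ft f s)⁻¹
  rw [mul_zero] at hfinal
  refine hfinal.congr fun T => ?_
  rw [← mul_assoc, inv_mul_cancel₀ hne, one_mul]

end FMT
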