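import Mathlib
import Pool.Agent.W418.FMT.Defs

/-!
# Periodization with finitely many nonzero Fourier coefficients is a trigonometric polynomial
-/

open MeasureTheory Filter Topology Complex

namespace FMT

namespace P2a

/-- The exponential `exp(-2 π i s x)`. -/
noncomputable def ee (s x : ℝ) : ℂ := Complex.exp (-(2 * Real.pi * s * x : ℝ) * I)

lemma ee_norm (s x : ℝ) : ‖ee s x‖ = 1 := by
  unfold ee
  rw [Complex.norm_exp]
  simp

lemma ee_cont (s : ℝ) : Continuous (ee s) := by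
  unfold ee
  fun_prop

lemma ee_add_int (j n : ℤ) (x : ℝ) : ee j (x + n) = ee j x := by
  unfold ee
  rw [Complex.exp_eq_exp_iff_exists_int]
  refine ⟨-(j * n), ?_⟩
  push_cast
  ring

lemma intble_mul {D : ℝ → ℂ} {S : Set ℝ} (hD : IntegrableOn D S) {q : ℝ → ℂ} (hq : Continuous q)
    {C : ℝ} (hC : ∀ y, ‖q y‖ ≤ C) : Integrable (fun x => q x * D x) (volume.restrict S) :=
  Integrable.bdd_mul hD hq.aestronglyMeasurable (ae_of_all _ hC)

lemma lam_intble {D : ℝ → ℂ} (hD : IntegrableOn D (Set.Ioc 0 1))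
    (q : C(AddCircle (1:ℝ), ℂ)) :
    Integrable (fun x : ℝ => q (x : AddCircle (1:ℝ)) * D x) (volume.restrict (Set.Ioc 0 1)) :=
  intble_mul hD (q.continuous.comp (AddCircle.continuous_mk' 1)) (C := ‖q‖)
    fun _ => q.norm_coe_le_norm _

lemma lam_span {D : ℝ → ℂ} (hD : IntegrableOn D (Set.Ioc 0 1))
    (h : ∀ j : ℤ, ∫ x in Set.Ioc (0:ℝ) 1, D x * ee j x = 0)
    (q : C(AddCircle (1:ℝ), ℂ))
    (hq : q ∈ Submodule.span ℂ (Set.range (fun n : ℤ => (fourier n : C(AddCircle (1:ℝ), ℂ))))) :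
    ∫ x in Set.Ioc (0:ℝ) 1, q (x : AddCircle (1:ℝ)) * D x = 0 := by
  induction hq using Submodule.span_induction with
  | mem q hq =>
    obtain ⟨n, rfl⟩ := hq
    rw [← h (-n)]
    refine integral_congr_ae (ae_of_all _ fun x => ?_)
    simp only [fourier_coe_apply]
    rw [mul_comm]
    unfold ee
    congr 2
    push_cast
    ring
  | zero => simp
  | add q₁ q₂ _ _ h1 h2 =>
    simp only [ContinuousMap.add_apply, add_mul]
    rw [integral_add (lam_intble hD q₁) (lam_intble hD q₂), h1, h2, add_zero]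
  | smul c q _ h1 =>
    simp only [ContinuousMap.smul_apply, smul_eq_mul, mul_assoc]
    rw [integral_const_mul, h1, mul_zero]

lemma lam_zero {D : ℝ → ℂ} (hD : IntegrableOn D (Set.Ioc 0 1))
    (h : ∀ j : ℤ, ∫ x in Set.Ioc (0:ℝ) 1, D x * ee j x = 0)
    (U : C(AddCircle (1:ℝ), ℂ)) :
    ∫ x in Set.Ioc (0:ℝ) 1, U (x : AddCircle (1:ℝ)) * D x = 0 := by
  have : Fact ((0:ℝ) < 1) := ⟨one_pos⟩
  set M : ℝ := ∫ x in Set.Ioc (0:ℝ) 1, ‖D x‖ with hM
  have hM0 : 0 ≤ M := integral_nonneg fun x => norm_nonneg _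
  have hU : U ∈ (Submodule.span ℂ (Set.range
      (fun n : ℤ => (fourier n : C(AddCircle (1:ℝ), ℂ))))).topologicalClosure := by
    rw [span_fourier_closure_eq_top]
    trivial
  rw [← SetLike.mem_coe, Submodule.topologicalClosure_coe, Metric.mem_closure_iff] at hU
  by_contra hne
  have hpos : 0 < ‖∫ x in Set.Ioc (0:ℝ) 1, U (x : AddCircle (1:ℝ)) * D x‖ := norm_pos_iff.2 hne
  set A := ‖∫ x in Set.Ioc (0:ℝ) 1, U (x : AddCircle (1:ℝ)) * D x‖ with hA
  obtain ⟨q, hq, hqu⟩ := hU (A / (M + 1)) (by positivity)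
  have h1 := lam_span hD h q hq
  have h2 : ∫ x in Set.Ioc (0:ℝ) 1, U (x : AddCircle (1:ℝ)) * D x
      = ∫ x in Set.Ioc (0:ℝ) 1, (U (x : AddCircle (1:ℝ)) * D x - q (x : AddCircle (1:ℝ)) * D x) := by
    rw [integral_sub (lam_intble hD U) (lam_intble hD q), h1, sub_zero]
  have h3 : A ≤ A / (M + 1) * M := by
    have h3' : A = ‖∫ x in Set.Ioc (0:ℝ) 1,
        (U (x : AddCircle (1:ℝ)) * D x - q (x : AddCircle (1:ℝ)) * D x)‖ := by rw [hA, h2]
    refine h3'.le.trans ?_
    calc _ ≤ ∫ x in Set.Ioc (0:ℝ) 1, A / (M + 1) * ‖D x‖ := by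
          refine norm_integral_le_of_norm_le (hD.norm.const_mul _) (ae_of_all _ fun x => ?_)
          rw [← sub_mul, norm_mul]
          refine mul_le_mul_of_nonneg_right ?_ (norm_nonneg _)
          have := ContinuousMap.dist_apply_le_dist (f := U) (g := q) (x : AddCircle (1:ℝ))
          rw [dist_eq_norm] at this
          exact this.trans hqu.le
      _ = A / (M + 1) * M := by rw [integral_const_mul]
  have h4 : A / (M + 1) * M < A := by
    rw [div_mul_eq_mul_div, div_lt_iff₀ (by positivity)]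
    nlinarith
  linarith

/-- uniqueness on `(0,1)` -/
lemma uniq {D : ℝ → ℂ} (hD : IntegrableOn D (Set.Ioc 0 1))
    (h : ∀ j : ℤ, ∫ x in Set.Ioc (0:ℝ) 1, D x * ee j x = 0) :
    ∀ᵐ x : ℝ, x ∈ Set.Ioo (0:ℝ) 1 → D x = 0 := by
  have : Fact ((0:ℝ) < 1) := ⟨one_pos⟩
  refine isOpen_Ioo.ae_eq_zero_of_integral_contDiff_smul_eq_zero
    (hD.mono_set Set.Ioo_subset_Ioc_self).locallyIntegrableOn ?_
  intro g hg hcs hsupp
  have hz : ∀ x, x ∉ Set.Ioo (0:ℝ) 1 → g x = 0 := fun x hx => by
    by_contra hne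
    exact hx (hsupp (subset_tsupport _ hne))
  have hg0 : g 0 = 0 := hz 0 (by simp)
  have hg1 : g 1 = 0 := hz 1 (by simp)
  let U : C(AddCircle (1:ℝ), ℂ) := ⟨AddCircle.liftIco 1 0 (fun x => ((g x : ℝ) : ℂ)),
    AddCircle.liftIco_continuous (by simp [hg0, hg1])
      ((Complex.continuous_ofReal.comp hg.continuous).continuousOn)⟩
  have h1 := lam_zero hD h U
  rw [← h1]
  rw [← setIntegral_eq_integral_of_forall_compl_eq_zero (s := Set.Ioo (0:ℝ) 1)
    (f := fun x => g x • D x) (fun x hx => by rw [hz x hx, zero_smul]),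
    integral_Ioc_eq_integral_Ioo]
  refine setIntegral_congr_fun measurableSet_Ioo fun x hx => ?_
  have : U (x : AddCircle (1:ℝ)) = (g x : ℂ) := by
    show AddCircle.liftIco 1 0 (fun x => ((g x : ℝ) : ℂ)) (x : AddCircle (1:ℝ)) = _
    rw [AddCircle.liftIco_coe_apply]
    exact ⟨hx.1.le, by simpa using hx.2⟩
  simp only [this]
  rw [Complex.real_smul]

lemma orth (i j : ℤ) :
    ∫ x in Set.Ioc (0:ℝ) 1, ee (-(i:ℝ)) x * ee j x = if i = j then 1 else 0 := by
  have h0 : ∀ x : ℝ, ee (-(i:ℝ)) x * ee j x = Complex.exp ((2 * Real.pi * (i - j : ℤ) * I : ℂ) * x) := by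
    intro x
    unfold ee
    rw [← Complex.exp_add]
    congr 1
    push_cast
    ring
  simp only [h0]
  rw [← intervalIntegral.integral_of_le zero_le_one]
  by_cases hij : i = j
  · subst hij
    simp
  · have hc : (2 * Real.pi * (i - j : ℤ) * I : ℂ) ≠ 0 := by
      have : ((i - j : ℤ) : ℂ) ≠ 0 := by
        exact_mod_cast sub_ne_zero.2 hij
      have h2 : (2 * (Real.pi : ℂ)) ≠ 0 := by
        have := Real.pi_ne_zero
        exact mul_ne_zero two_ne_zero (by exact_mod_cast this)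
      exact mul_ne_zero (mul_ne_zero h2 this) I_ne_zero
    rw [integral_exp_mul_complex hc, if_neg hij]
    have : Complex.exp ((2 * Real.pi * (i - j : ℤ) * I : ℂ) * (1:ℝ)) = 1 := by
      rw [Complex.exp_eq_one_iff]
      exact ⟨i - j, by push_cast; ring⟩
    rw [this]
    simp

lemma per_one (g : ℝ → ℂ) (hg : Integrable g) (F : Finset ℤ)
    (h : ∀ j : ℤ, j ∉ F → ∫ x, g x * ee j x = 0) :
    ∀ᵐ x : ℝ, ∑' k : ℤ, g (x + k) = ∑ j ∈ F, (∫ x, g x * ee j x) * ee (-(j:ℝ)) x := by
  set c : ℤ → ℂ := fun j => ∫ x, g x * ee j x with hc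
  set G : ℝ → ℂ := fun x => ∑' k : ℤ, g (x + k) with hG
  have hI : ∀ n : ℤ, Integrable (fun x => g (x + n)) (volume.restrict (Set.Ioc (0:ℝ) 1)) :=
    fun n => (hg.comp_add_right (n:ℝ)).integrableOn
  have hS : Summable fun n : ℤ => ∫ x in Set.Ioc (0:ℝ) 1, ‖g (x + n)‖ := by
    have := hg.norm.hasSum_intervalIntegral_comp_add_int.summable
    simpa only [intervalIntegral.integral_of_le zero_le_one] using this
  have hGint : IntegrableOn G (Set.Ioc 0 1) := by
    refine ⟨?_, ?_⟩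
    · exact (AEMeasurable.tsum fun n => (hI n).1.aemeasurable).aestronglyMeasurable
    · unfold HasFiniteIntegral
      calc ∫⁻ x in Set.Ioc (0:ℝ) 1, ‖G x‖ₑ ≤ ∫⁻ x in Set.Ioc (0:ℝ) 1, ∑' n : ℤ, ‖g (x + n)‖ₑ := by
            refine lintegral_mono fun x => ?_
            exact enorm_tsum_le_tsum_enorm
        _ = ∑' n : ℤ, ∫⁻ x in Set.Ioc (0:ℝ) 1, ‖g (x + n)‖ₑ := by
            rw [lintegral_tsum fun n => (hI n).1.enorm]
        _ = ∑' n : ℤ, ENNReal.ofReal (∫ x in Set.Ioc (0:ℝ) 1, ‖g (x + n)‖) := by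
            refine tsum_congr fun n => ?_
            rw [ofReal_integral_norm_eq_lintegral_enorm (hI n)]
        _ < ⊤ := by
            rw [← ENNReal.ofReal_tsum_of_nonneg (fun n => integral_nonneg fun x => norm_nonneg _) hS]
            exact ENNReal.ofReal_lt_top
  have hGc : ∀ j : ℤ, ∫ x in Set.Ioc (0:ℝ) 1, G x * ee j x = c j := by
    intro j
    have hIj : Integrable (fun x => g x * ee j x) := by
      simpa only [mul_comm] using
        (Integrable.bdd_mul hg (ee_cont j).aestronglyMeasurable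
          (ae_of_all _ fun x => (ee_norm j x).le))
    have h1 := hIj.hasSum_intervalIntegral_comp_add_int.tsum_eq
    rw [hc]
    simp only
    rw [← h1]
    have h2 : ∀ n : ℤ, ∫ x in (0:ℝ)..1, g (x + n) * ee j (x + n)
        = ∫ x in Set.Ioc (0:ℝ) 1, g (x + n) * ee j x := by
      intro n
      rw [intervalIntegral.integral_of_le zero_le_one]
      simp only [ee_add_int]
    simp only [h2]
    rw [integral_tsum_of_summable_integral_norm]
    · simp only [hG, tsum_mul_right]
    · intro n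
      simpa only [mul_comm] using
        (Integrable.bdd_mul (hI n) (ee_cont j).aestronglyMeasurable
          (ae_of_all _ fun x => (ee_norm j x).le))
    · simpa only [norm_mul, ee_norm, mul_one] using hS
  set T : ℝ → ℂ := fun x => ∑ j ∈ F, c j * ee (-(j:ℝ)) x with hT
  have hTc : Continuous T := by
    rw [hT]
    exact continuous_finsetSum _ fun j _ => continuous_const.mul (ee_cont _)
  have hTint : IntegrableOn T (Set.Ioc 0 1) :=
    (hTc.continuousOn.integrableOn_Icc).mono_set Set.Ioc_subset_Icc_self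
  have hTj : ∀ j : ℤ, ∫ x in Set.Ioc (0:ℝ) 1, T x * ee j x = c j := by
    intro j
    simp only [hT, Finset.sum_mul]
    rw [integral_finsetSum]
    · have : ∀ i ∈ F, ∫ x in Set.Ioc (0:ℝ) 1, c i * ee (-(i:ℝ)) x * ee j x
          = if i = j then c i else 0 := by
        intro i _
        simp only [mul_assoc]
        rw [integral_const_mul, orth]
        split_ifs <;> simp
      rw [Finset.sum_congr rfl this, Finset.sum_ite_eq']
      split_ifs with hj
      · rfl
      · exact (h j hj).symm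
    · intro i _
      refine Continuous.integrableOn_Ioc ?_
      exact (continuous_const.mul (ee_cont _)).mul (ee_cont _)
  have hD := uniq (D := fun x => G x - T x) (hGint.sub hTint) (by
    intro j
    simp only [sub_mul]
    rw [integral_sub, hGc, hTj, sub_self]
    · simpa only [mul_comm] using
        intble_mul hGint (ee_cont j) (C := 1) fun x => (ee_norm j x).le
    · simpa only [mul_comm] using
        intble_mul hTint (ee_cont j) (C := 1) fun x => (ee_norm j x).le)
  have hGp : ∀ (x : ℝ) (n : ℤ), G (x - n) = G x := by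
    intro x n
    simp only [hG]
    rw [← (Equiv.addRight n).tsum_eq (fun k : ℤ => g (x - n + k))]
    refine tsum_congr fun k => ?_
    congr 1
    simp
  have hTp : ∀ (x : ℝ) (n : ℤ), T (x - n) = T x := by
    intro x n
    simp only [hT]
    refine Finset.sum_congr rfl fun j _ => ?_
    have := ee_add_int (-j) (-n) x
    push_cast at this
    rw [sub_eq_add_neg, this]
  have hall : ∀ᵐ x : ℝ, ∀ n : ℤ, x - n ∈ Set.Ioo (0:ℝ) 1 → G (x - n) - T (x - n) = 0 := by
    rw [ae_all_iff]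
    intro n
    exact (measurePreserving_sub_right volume (n:ℝ)).quasiMeasurePreserving.ae hD
  have hnint : ∀ᵐ x : ℝ, x ∉ Set.range (fun n : ℤ => (n:ℝ)) :=
    (Set.countable_range _).ae_notMem _
  filter_upwards [hall, hnint] with x hx hx2
  have h1 := hx ⌊x⌋ ?_
  · rw [hGp, hTp] at h1
    exact sub_eq_zero.1 h1
  · refine ⟨?_, ?_⟩
    · have : (⌊x⌋ : ℝ) ≤ x := Int.floor_le x
      rcases this.lt_or_eq with h | h
      · linarith
      · exact absurd ⟨_, h⟩ hx2
    · have := Int.lt_floor_add_one x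
      linarith

end P2a

open P2a in
theorem per_trig (g : ℝ → ℂ) (hg : Integrable g) (τ : ℝ) (hτ : 0 < τ) (F : Finset ℤ)
    (h : ∀ j : ℤ, j ∉ F → ft g (j / τ) = 0) :
    ∀ᵐ x : ℝ, ∑' k : ℤ, g (x + k * τ) =
      ∑ j ∈ F, (1 / (τ : ℂ)) * ft g (j / τ) * Complex.exp ((2 * Real.pi * (j / τ) * x : ℝ) * I) := by
  have hτ' : (τ : ℝ) ≠ 0 := hτ.ne'
  have hint : Integrable (fun x => g (τ * x)) := hg.comp_mul_left' hτ'
  have hft : ∀ j : ℤ, ∫ x, g (τ * x) * ee j x = (1 / (τ : ℂ)) * ft g (j / τ) := by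
    intro j
    have h1 := Measure.integral_comp_mul_left
      (fun y : ℝ => g y * Complex.exp (-(2 * Real.pi * (j / τ) * y : ℝ) * I)) τ
    have h2 : ∀ x : ℝ, g (τ * x) * ee j x
        = g (τ * x) * Complex.exp (-(2 * Real.pi * (j / τ) * (τ * x) : ℝ) * I) := by
      intro x
      unfold ee
      have : (2 * Real.pi * j * x : ℝ) = (2 * Real.pi * (j / τ) * (τ * x) : ℝ) := by
        field_simp
      rw [this]
    simp only [h2]
    rw [h1]
    unfold ft
    rw [abs_of_pos (inv_pos.2 hτ), Complex.real_smul]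
    simp
  have h1 := per_one (fun x => g (τ * x)) hint F (by
    intro j hj
    rw [hft, h j hj, mul_zero])
  have h2 := (Measure.quasiMeasurePreserving_smul (μ := (volume : Measure ℝ)) (inv_ne_zero hτ')).ae h1
  filter_upwards [h2] with x hx
  have e1 : ∀ k : ℤ, τ * (τ⁻¹ • x + k) = x + k * τ := by
    intro k
    rw [smul_eq_mul]
    field_simp
  have e2 : ∀ j : ℤ, ee (-(j:ℝ)) (τ⁻¹ • x)
      = Complex.exp ((2 * Real.pi * (j / τ) * x : ℝ) * I) := by
    intro j
    unfold ee
    congr 1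
    rw [smul_eq_mul]
    push_cast
    ring
  simp only [e1, e2, hft] at hx
  exact hx

end FMT
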