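import Mathlib
import Pool.Agent.W418.FMT.Defs

open MeasureTheory Filter Topology Complex

namespace FMT

namespace P3b

/-- the point of the circle -/
noncomputable def q (x : ℝ) : ℂ := Complex.exp ((2 * Real.pi * x : ℝ) * I)

theorem norm_q (x : ℝ) : ‖q x‖ = 1 := Complex.norm_exp_ofReal_mul_I _

theorem norm_e (k : ℕ) (x : ℝ) : ‖Complex.exp (-(2 * Real.pi * k * x : ℝ) * I)‖ = 1 := by
  rw [← Complex.ofReal_neg]
  exact Complex.norm_exp_ofReal_mul_I _

theorem int_q (j k : ℕ) : ∫ x in (0 : ℝ)..1,
    Complex.exp (-(2 * Real.pi * k * x : ℝ) * I) * q x ^ j = if j = k then 1 else 0 := by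
  have h : ∀ x : ℝ, Complex.exp (-(2 * Real.pi * k * x : ℝ) * I) * q x ^ j =
      Complex.exp ((((j : ℤ) - (k : ℤ) : ℤ) : ℂ) * (2 * Real.pi * I) * x) := by
    intro x
    unfold q
    rw [← Complex.exp_nat_mul, ← Complex.exp_add]
    congr 1
    push_cast
    ring
  simp only [h]
  by_cases hjk : j = k
  · rw [if_pos hjk, hjk]
    simp
  · rw [if_neg hjk]
    have hc : (((j : ℤ) - (k : ℤ) : ℤ) : ℂ) * (2 * Real.pi * I) ≠ 0 := by
      apply mul_ne_zero
      · rw [Int.cast_ne_zero]
        omega
      · exact Complex.two_pi_I_ne_zero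
    rw [integral_exp_mul_complex hc]
    simp only [ofReal_one, mul_one, ofReal_zero, mul_zero, Complex.exp_zero]
    rw [Complex.exp_int_mul_two_pi_mul_I, sub_self, zero_div]

/-- the polynomial -/
noncomputable def P (m k : ℕ) : Polynomial ℤ :=
  ∑ l ∈ Finset.range (k + 1), ∑ i ∈ Finset.range (m + 1),
    if i + l = k then Polynomial.C ((m.choose i : ℤ) * ((l + (m - 1)).choose (m - 1) : ℤ) *
      (-1) ^ (m - i)) * Polynomial.X ^ (m - i + l) else 0

theorem P_ne (m k : ℕ) : P m k ≠ 0 := by
  intro h0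
  have h : (P m k).coeff (m + k) = ((k + (m - 1)).choose (m - 1) : ℤ) * (-1) ^ m := by
    unfold P
    rw [Polynomial.finset_sum_coeff, Finset.sum_eq_single k]
    · rw [Polynomial.finset_sum_coeff, Finset.sum_eq_single 0]
      · rw [if_pos (zero_add k), Polynomial.coeff_C_mul, Polynomial.coeff_X_pow, Nat.sub_zero,
          if_pos rfl, Nat.choose_zero_right]
        simp
      · intro i _ hi
        rw [if_neg (by omega)]
        simp
      · intro h1
        exact absurd (Finset.mem_range.2 (Nat.succ_pos m)) h1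
    · intro l hl hlk
      rw [Polynomial.finset_sum_coeff]
      apply Finset.sum_eq_zero
      intro i hi
      rw [Finset.mem_range] at hi hl
      by_cases h1 : i + l = k
      · rw [if_pos h1, Polynomial.coeff_C_mul, Polynomial.coeff_X_pow, if_neg (by omega), mul_zero]
      · rw [if_neg h1]
        simp
    · intro h1
      exact absurd (Finset.mem_range.2 (Nat.lt_succ_self k)) h1
  rw [h0, Polynomial.coeff_zero] at h
  have h2 : 0 < (k + (m - 1)).choose (m - 1) := Nat.choose_pos (by omega)
  have h3 : ((k + (m - 1)).choose (m - 1) : ℤ) * (-1) ^ m ≠ 0 :=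
    mul_ne_zero (by exact_mod_cast h2.ne') (pow_ne_zero _ (by norm_num))
  exact h3 h.symm

theorem integral_eq (r : ℝ) (hr : |r| < 1) (m k : ℕ) (hm : 1 ≤ m) :
    (∫ x in (0 : ℝ)..1, Complex.exp (-(2 * Real.pi * k * x : ℝ) * I) *
      ((Complex.exp ((2 * Real.pi * x : ℝ) * I) - r) /
        (1 - r * Complex.exp ((2 * Real.pi * x : ℝ) * I))) ^ m) =
      ((Polynomial.aeval r (P m k) : ℝ) : ℂ) := by
  have hm1 : m - 1 + 1 = m := by omega
  set c : ℕ → ℂ := fun l => (((l + (m - 1)).choose (m - 1) : ℕ) : ℂ) with hc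
  set T : ℕ → ℝ → ℂ := fun l x => Complex.exp (-(2 * Real.pi * k * x : ℝ) * I) *
    (q x - r) ^ m * (c l * (r * q x) ^ l) with hT
  have hsum : ∀ x : ℝ, HasSum (fun l => T l x)
      (Complex.exp (-(2 * Real.pi * k * x : ℝ) * I) *
      ((Complex.exp ((2 * Real.pi * x : ℝ) * I) - r) /
        (1 - r * Complex.exp ((2 * Real.pi * x : ℝ) * I))) ^ m) := by
    intro x
    have h1 : ‖(r : ℂ) * q x‖ < 1 := by
      rw [norm_mul, norm_q, mul_one, Complex.norm_real]
      exact hr
    have h2 := hasSum_choose_mul_geometric_of_norm_lt_one (m - 1) h1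
    rw [hm1] at h2
    have h3 := h2.mul_left (Complex.exp (-(2 * Real.pi * k * x : ℝ) * I) * (q x - r) ^ m)
    have e : Complex.exp (-(2 * Real.pi * k * x : ℝ) * I) * (q x - r) ^ m *
        (1 / (1 - r * q x) ^ m) = Complex.exp (-(2 * Real.pi * k * x : ℝ) * I) *
      ((Complex.exp ((2 * Real.pi * x : ℝ) * I) - r) /
        (1 - r * Complex.exp ((2 * Real.pi * x : ℝ) * I))) ^ m := by
      rw [div_pow]
      show _ = Complex.exp (-(2 * Real.pi * k * x : ℝ) * I) *
        ((q x - r) ^ m / (1 - r * q x) ^ m)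
      ring
    rw [e] at h3
    exact h3
  have hr' : ‖|r|‖ < 1 := by
    rw [Real.norm_eq_abs, abs_abs]; exact hr
  have hsr := (hasSum_choose_mul_geometric_of_norm_lt_one (m - 1) hr').summable
  have hcontq : Continuous q := by
    unfold q
    fun_prop
  have hconte : Continuous fun x : ℝ => Complex.exp (-(2 * Real.pi * k * x : ℝ) * I) := by
    fun_prop
  have hI := intervalIntegral.hasSum_integral_of_dominated_convergence (μ := volume) (a := 0)
    (b := 1) (F := T)
    (f := fun x : ℝ => Complex.exp (-(2 * Real.pi * k * x : ℝ) * I) *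
      ((Complex.exp ((2 * Real.pi * x : ℝ) * I) - r) /
        (1 - r * Complex.exp ((2 * Real.pi * x : ℝ) * I))) ^ m)
    (fun l _ => 2 ^ m * ((((l + (m - 1)).choose (m - 1) : ℕ) : ℝ) * |r| ^ l))
    (by
      intro l
      apply Continuous.aestronglyMeasurable
      simp only [hT]
      exact (hconte.mul ((hcontq.sub continuous_const).pow m)).mul
        (continuous_const.mul ((continuous_const.mul hcontq).pow l)))
    (by
      intro l
      refine Eventually.of_forall fun x _ => ?_
      simp only [hT, hc]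
      rw [norm_mul, norm_mul, norm_e, one_mul, norm_pow, norm_mul, norm_pow, norm_mul, norm_q,
        mul_one, Complex.norm_real, Real.norm_eq_abs, Complex.norm_natCast]
      apply mul_le_mul_of_nonneg_right _ (by positivity)
      apply pow_le_pow_left₀ (norm_nonneg _)
      refine (norm_sub_le _ _).trans ?_
      rw [norm_q, Complex.norm_real, Real.norm_eq_abs]
      linarith)
    (Eventually.of_forall fun x _ => hsr.mul_left _)
    (by simp)
    (Eventually.of_forall fun x _ => hsum x)
  have hTl : ∀ l, ∫ x in (0 : ℝ)..1, T l x = ∑ i ∈ Finset.range (m + 1),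
      if i + l = k then ((m.choose i : ℂ) * c l * (-1) ^ (m - i)) * (r : ℂ) ^ (m - i + l)
        else 0 := by
    intro l
    have e : ∀ x, T l x = ∑ i ∈ Finset.range (m + 1),
        (((m.choose i : ℂ) * c l * (-1) ^ (m - i)) * (r : ℂ) ^ (m - i + l)) *
          (Complex.exp (-(2 * Real.pi * k * x : ℝ) * I) * q x ^ (i + l)) := by
      intro x
      simp only [hT]
      rw [sub_eq_add_neg, add_pow, Finset.mul_sum, Finset.sum_mul]
      refine Finset.sum_congr rfl fun i _ => ?_
      rw [neg_pow (r : ℂ) (m - i), mul_pow, pow_add, pow_add]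
      ring
    simp only [e]
    rw [intervalIntegral.integral_finset_sum]
    · refine Finset.sum_congr rfl fun i _ => ?_
      rw [intervalIntegral.integral_const_mul, int_q]
      split_ifs <;> simp
    · intro i _
      apply Continuous.intervalIntegrable
      exact continuous_const.mul (hconte.mul (hcontq.pow _))
  have hzero : ∀ l ∉ Finset.range (k + 1), ∫ x in (0 : ℝ)..1, T l x = 0 := by
    intro l hl
    rw [hTl]
    apply Finset.sum_eq_zero
    intro i _
    rw [Finset.mem_range] at hl
    rw [if_neg (by omega)]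
  have hfin : HasSum (fun l => ∫ x in (0 : ℝ)..1, T l x)
      (∑ l ∈ Finset.range (k + 1), ∫ x in (0 : ℝ)..1, T l x) :=
    hasSum_sum_of_ne_finset_zero hzero
  rw [hI.unique hfin]
  unfold P
  rw [map_sum, Complex.ofReal_sum]
  refine Finset.sum_congr rfl fun l _ => ?_
  rw [hTl, map_sum, Complex.ofReal_sum]
  refine Finset.sum_congr rfl fun i _ => ?_
  split_ifs with h
  · simp [hc]
  · simp

end P3b

theorem coeff_ne (r : ℝ) (hr : |r| < 1) (hT : Transcendental ℤ r) (m k : ℕ) (hm : 1 ≤ m) :
    (∫ x in (0 : ℝ)..1, Complex.exp (-(2 * Real.pi * k * x : ℝ) * I) *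
      ((Complex.exp ((2 * Real.pi * x : ℝ) * I) - r) / (1 - r * Complex.exp ((2 * Real.pi * x : ℝ) * I))) ^ m) ≠ 0 := by
  rw [P3b.integral_eq r hr m k hm]
  intro h
  rw [Complex.ofReal_eq_zero] at h
  exact hT ⟨P3b.P m k, P3b.P_ne m k, h⟩

end FMT
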