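import Mathlib
import Pool.Agent.W418.FMT.Defs

open MeasureTheory Filter Topology Complex

namespace FMT

noncomputable def phU (r x : ℝ) : ℝ :=
  r * Real.sin (2 * Real.pi * x) / (1 - r * Real.cos (2 * Real.pi * x))

noncomputable def phPhi (α r x : ℝ) : ℝ :=
  (1 + α) * x + Real.arctan (phU r x) / Real.pi

theorem phW_pos (r x : ℝ) (hr : |r| < 1) : 0 < 1 - r * Real.cos x := by
  have h1 : |r * Real.cos x| < 1 := by
    rw [abs_mul]
    calc |r| * |Real.cos x| ≤ |r| * 1 :=
          mul_le_mul_of_nonneg_left (Real.abs_cos_le_one x) (abs_nonneg r)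
      _ < 1 := by linarith
  have := (abs_lt.mp h1).2
  linarith

theorem phD_pos (r x : ℝ) (hr : |r| < 1) : 0 < 1 - 2 * r * Real.cos x + r ^ 2 := by
  have h := phW_pos r x hr
  have e : 1 - 2 * r * Real.cos x + r ^ 2
      = (1 - r * Real.cos x) ^ 2 + (r * Real.sin x) ^ 2 := by
    have := Real.sin_sq_add_cos_sq x
    linear_combination (-r ^ 2) * this
  rw [e]
  positivity

theorem phPhi_deriv (α r x : ℝ) (hr : |r| < 1) :
    HasDerivAt (phPhi α r)
      (α + (1 - r ^ 2) / (1 - 2 * r * Real.cos (2 * Real.pi * x) + r ^ 2)) x := by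
  set θ := 2 * Real.pi * x with hθ
  have hW := phW_pos r θ hr
  have hD := phD_pos r θ hr
  have hlin : HasDerivAt (fun y : ℝ => 2 * Real.pi * y) (2 * Real.pi) x := by
    simpa using (hasDerivAt_id x).const_mul (2 * Real.pi)
  have hs : HasDerivAt (fun y : ℝ => Real.sin (2 * Real.pi * y)) (Real.cos θ * (2 * Real.pi)) x :=
    (Real.hasDerivAt_sin (2 * Real.pi * x)).comp x hlin
  have hc : HasDerivAt (fun y : ℝ => Real.cos (2 * Real.pi * y)) (-Real.sin θ * (2 * Real.pi)) x :=
    (Real.hasDerivAt_cos (2 * Real.pi * x)).comp x hlin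
  have hnum : HasDerivAt (fun y : ℝ => r * Real.sin (2 * Real.pi * y))
      (r * (Real.cos θ * (2 * Real.pi))) x := hs.const_mul r
  have hden : HasDerivAt (fun y : ℝ => 1 - r * Real.cos (2 * Real.pi * y))
      (-(r * (-Real.sin θ * (2 * Real.pi)))) x := by
    simpa using (hc.const_mul r).const_sub 1
  have hu : HasDerivAt (phU r)
      ((r * (Real.cos θ * (2 * Real.pi)) * (1 - r * Real.cos θ)
        - r * Real.sin θ * (-(r * (-Real.sin θ * (2 * Real.pi))))) / (1 - r * Real.cos θ) ^ 2) x :=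
    hnum.div hden hW.ne'
  have ha := (hu.arctan).div_const Real.pi
  have hl : HasDerivAt (fun y : ℝ => (1 + α) * y) (1 + α) x := by
    simpa using (hasDerivAt_id x).const_mul (1 + α)
  have htot := hl.add ha
  refine (htot.congr_deriv ?_)
  have hsc := Real.sin_sq_add_cos_sq θ
  have hu2 : 1 + phU r x ^ 2
      = (1 - 2 * r * Real.cos θ + r ^ 2) / (1 - r * Real.cos θ) ^ 2 := by
    unfold phU
    rw [← hθ]
    rw [div_pow, eq_div_iff (by positivity), add_mul, div_mul_cancel₀ _ (by positivity)]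
    linear_combination (r ^ 2) * hsc
  rw [hu2]
  have hpi := Real.pi_pos.ne'
  have hW' := hW.ne'
  have hD' := hD.ne'
  field_simp
  linear_combination (-2 * r ^ 2) * hsc

theorem phPhi_period (α r x : ℝ) : phPhi α r (x + 1) = phPhi α r x + (1 + α) := by
  unfold phPhi phU
  have h1 : 2 * Real.pi * (x + 1) = 2 * Real.pi * x + 2 * Real.pi := by ring
  rw [h1, Real.sin_add_two_pi, Real.cos_add_two_pi]
  ring

theorem exp_two_arctan (u : ℝ) :
    Complex.exp ((2 * Real.arctan u : ℝ) * I) = (1 + u * I) / (1 - u * I) := by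
  set φ := Real.arctan u with hφ
  have hc : 0 < Real.cos φ := Real.cos_arctan_pos u
  have hu : u = Real.sin φ / Real.cos φ := by
    rw [← Real.tan_eq_sin_div_cos, hφ, Real.tan_arctan]
  obtain ⟨c, hcc⟩ : ∃ c, c = Real.cos φ := ⟨_, rfl⟩
  obtain ⟨s, hss⟩ : ∃ s, s = Real.sin φ := ⟨_, rfl⟩
  rw [← hcc] at hc
  rw [← hcc, ← hss] at hu
  have hcC : (c : ℂ) ≠ 0 := by exact_mod_cast hc.ne'
  have h1 : Complex.exp (φ * I) = c + s * I := by
    rw [Complex.exp_mul_I, ← Complex.ofReal_cos, ← Complex.ofReal_sin, ← hcc, ← hss]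
  have h2 : Complex.exp (-(φ * I)) = c - s * I := by
    rw [show -((φ : ℂ) * I) = ((-φ : ℝ) : ℂ) * I by push_cast; ring, Complex.exp_mul_I,
      ← Complex.ofReal_cos, ← Complex.ofReal_sin, Real.cos_neg, Real.sin_neg, ← hcc, ← hss]
    push_cast
    ring
  have e1 : (1 + u * I : ℂ) = Complex.exp (φ * I) / c := by
    rw [h1, hu]
    push_cast
    field_simp
  have e2 : (1 - u * I : ℂ) = Complex.exp (-(φ * I)) / c := by
    rw [h2, hu]
    push_cast
    field_simp
  rw [e1, e2, div_div_div_cancel_right₀ hcC, ← Complex.exp_sub]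
  congr 1
  push_cast
  ring

theorem ph_exp (r x : ℝ) (hr : |r| < 1) :
    Complex.exp ((2 * Real.pi * x : ℝ) * I) *
      Complex.exp ((2 * Real.arctan (phU r x) : ℝ) * I) =
    (Complex.exp ((2 * Real.pi * x : ℝ) * I) - r) /
      (1 - r * Complex.exp ((2 * Real.pi * x : ℝ) * I)) := by
  rw [exp_two_arctan]
  set θ := 2 * Real.pi * x with hθ
  have hW := phW_pos r θ hr
  have hU : phU r x = r * Real.sin θ / (1 - r * Real.cos θ) := by unfold phU; rw [← hθ]
  have hsc0 := Real.sin_sq_add_cos_sq θ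
  have hz : Complex.exp ((θ : ℝ) * I) = ((Real.cos θ : ℝ) : ℂ) + ((Real.sin θ : ℝ) : ℂ) * I := by
    rw [Complex.exp_mul_I, Complex.ofReal_cos, Complex.ofReal_sin]
  generalize Real.cos θ = c at *
  generalize Real.sin θ = s at *
  have hWC : (1 - r * c : ℂ) ≠ 0 := by
    have : ((1 - r * c : ℝ) : ℂ) ≠ 0 := by exact_mod_cast hW.ne'
    simpa using this
  have hsc : (s : ℂ) ^ 2 + (c : ℂ) ^ 2 = 1 := by exact_mod_cast hsc0
  have hden : (1 - r * (c + s * I) : ℂ) ≠ 0 := by
    intro h
    have := congrArg Complex.re h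
    simp at this
    linarith
  have hden2 : (1 - (phU r x : ℂ) * I) ≠ 0 := by
    intro h
    have := congrArg Complex.re h
    simp at this
  have hI : I ^ 2 = -1 := Complex.I_sq
  have hUC : (phU r x : ℂ) * (1 - r * c) = r * s := by
    rw [hU]
    push_cast
    field_simp
  rw [hz, mul_div_assoc', div_eq_div_iff hden2 hden]
  generalize (phU r x : ℂ) = u at *
  apply mul_left_cancel₀ hWC
  have h3 : (1 - r * c : ℂ) * ((c + s * I) * (1 + u * I) * (1 - r * (c + s * I)))
      = (c + s * I) * ((1 - r * c) + (u * (1 - r * c)) * I) * (1 - r * (c + s * I)) := by ring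
  have h4 : (1 - r * c : ℂ) * ((c + s * I - r) * (1 - u * I))
      = (c + s * I - r) * ((1 - r * c) - (u * (1 - r * c)) * I) := by ring
  rw [h3, h4, hUC]
  have h5 : ((c : ℂ) + s * I) * ((1 - r * c) + (r * s) * I) = c + s * I - r := by
    linear_combination (-(r : ℂ)) * hsc + (r * s ^ 2 : ℂ) * hI
  have h6 : (1 - r * (c + s * I) : ℂ) = (1 - r * c) - (r * s) * I := by ring
  rw [h5, h6]

theorem ph_main (α r x : ℝ) (hr : |r| < 1) :
    Complex.exp ((2 * Real.pi * phPhi α r x : ℝ) * I) =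
      Complex.exp ((2 * Real.pi * (α * x) : ℝ) * I) *
        ((Complex.exp ((2 * Real.pi * x : ℝ) * I) - r) /
          (1 - r * Complex.exp ((2 * Real.pi * x : ℝ) * I))) := by
  rw [← ph_exp r x hr, ← Complex.exp_add, ← Complex.exp_add]
  congr 1
  have hpi := Real.pi_pos.ne'
  have h : 2 * Real.pi * phPhi α r x
      = 2 * Real.pi * (α * x) + (2 * Real.pi * x + 2 * Real.arctan (phU r x)) := by
    unfold phPhi
    field_simp
    ring
  rw [h]
  push_cast
  ring

theorem ph_iff (α r x : ℝ) (hr : |r| < 1) :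
    (∃ n : ℤ, phPhi α r x = n) ↔
      Real.sin (Real.pi * ((1 + α) * x)) = r * Real.sin (Real.pi * ((α - 1) * x)) := by
  have hpi := Real.pi_pos.ne'
  have hpiC : (Real.pi : ℂ) ≠ 0 := by exact_mod_cast hpi
  have step1 : (∃ n : ℤ, phPhi α r x = n) ↔
      Complex.exp ((2 * Real.pi * phPhi α r x : ℝ) * I) = 1 := by
    rw [Complex.exp_eq_one_iff]
    constructor
    · rintro ⟨n, hn⟩
      refine ⟨n, ?_⟩
      rw [hn]
      push_cast
      ring
    · rintro ⟨n, hn⟩
      refine ⟨n, ?_⟩
      have h2 : ((2 * Real.pi * phPhi α r x : ℝ) : ℂ) = n * (2 * Real.pi) := by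
        have hI : (I : ℂ) ≠ 0 := Complex.I_ne_zero
        apply mul_right_cancel₀ hI
        rw [hn]
        ring
      have h3 : 2 * Real.pi * phPhi α r x = n * (2 * Real.pi) := by exact_mod_cast h2
      have h4 : (2 * Real.pi) * phPhi α r x = (2 * Real.pi) * n := by linarith
      exact mul_left_cancel₀ (by positivity) h4
  rw [step1, ph_main α r x hr]
  set A := Real.pi * ((1 + α) * x) with hA
  set B := Real.pi * ((α - 1) * x) with hB
  have hz : Complex.exp ((2 * Real.pi * x : ℝ) * I) = Complex.exp (A * I) * Complex.exp (-(B * I)) := by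
    rw [← Complex.exp_add]; congr 1; rw [hA, hB]; push_cast; ring
  have ha : Complex.exp ((2 * Real.pi * (α * x) : ℝ) * I)
      = Complex.exp (A * I) * Complex.exp (B * I) := by
    rw [← Complex.exp_add]; congr 1; rw [hA, hB]; push_cast; ring
  have hden : (1 - r * Complex.exp ((2 * Real.pi * x : ℝ) * I) : ℂ) ≠ 0 := by
    intro h
    have h1 : (r : ℂ) * Complex.exp ((2 * Real.pi * x : ℝ) * I) = 1 := (sub_eq_zero.mp h).symm
    have h2 := congrArg norm h1
    rw [norm_mul, Complex.norm_exp_ofReal_mul_I, mul_one, norm_one, Complex.norm_real,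
      Real.norm_eq_abs] at h2
    linarith
  rw [mul_div_assoc', div_eq_one_iff_eq hden, hz, ha]
  have hB1 : Complex.exp (B * I) * Complex.exp (-(B * I)) = 1 := by
    rw [← Complex.exp_add]; simp
  have hA1 : Complex.exp (A * I) * Complex.exp (-(A * I)) = 1 := by
    rw [← Complex.exp_add]; simp
  have hsA : (2 * I) * ((Real.sin A : ℝ) : ℂ) = Complex.exp (A * I) - Complex.exp (-(A * I)) := by
    rw [Complex.ofReal_sin, Complex.sin]
    have hI : I ^ 2 = -1 := Complex.I_sq
    rw [show (-(A:ℂ) * I) = -(A * I) by ring]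
    linear_combination (Complex.exp (-(A * I)) - Complex.exp (A * I)) * hI
  have hsB : (2 * I) * ((Real.sin B : ℝ) : ℂ) = Complex.exp (B * I) - Complex.exp (-(B * I)) := by
    rw [Complex.ofReal_sin, Complex.sin]
    have hI : I ^ 2 = -1 := Complex.I_sq
    rw [show (-(B:ℂ) * I) = -(B * I) by ring]
    linear_combination (Complex.exp (-(B * I)) - Complex.exp (B * I)) * hI
  have hI0 : (2 * I : ℂ) ≠ 0 := by simp
  have hA0 : Complex.exp (A * I) ≠ 0 := Complex.exp_ne_zero _
  generalize Complex.exp (A * I) = a at *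
  generalize Complex.exp (-(A * I)) = a' at *
  generalize Complex.exp (B * I) = b at *
  generalize Complex.exp (-(B * I)) = b' at *
  have key : a * b * (a * b' - r) - (1 - r * (a * b'))
      = a * (2 * I) * (((Real.sin A : ℝ) : ℂ) - r * ((Real.sin B : ℝ) : ℂ)) := by
    have : a * (2 * I) * (((Real.sin A : ℝ) : ℂ) - r * ((Real.sin B : ℝ) : ℂ))
        = a * ((2 * I) * ((Real.sin A : ℝ) : ℂ)) - a * r * ((2 * I) * ((Real.sin B : ℝ) : ℂ)) := by
      ring
    rw [this, hsA, hsB]
    linear_combination a ^ 2 * hB1 + hA1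
  constructor
  · intro h
    have h0 : a * (2 * I) * (((Real.sin A : ℝ) : ℂ) - r * ((Real.sin B : ℝ) : ℂ)) = 0 := by
      rw [← key, h, sub_self]
    have h1 : (((Real.sin A : ℝ) : ℂ) - r * ((Real.sin B : ℝ) : ℂ)) = 0 := by
      rcases mul_eq_zero.mp h0 with h | h
      · exact absurd h (mul_ne_zero hA0 hI0)
      · exact h
    have h2 := sub_eq_zero.mp h1
    exact_mod_cast h2
  · intro h
    have h1 : (((Real.sin A : ℝ) : ℂ) - r * ((Real.sin B : ℝ) : ℂ)) = 0 := by
      rw [h]; push_cast; ring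
    rw [h1, mul_zero] at key
    exact sub_eq_zero.mp key

theorem phase (α r : ℝ) (hα : 0 < α) (hr : |r| < 1) :
    ∃ Φ : ℝ → ℝ, Φ 0 = 0 ∧ StrictMono Φ ∧ Function.Surjective Φ ∧
      (∀ x, HasDerivAt Φ (α + (1 - r ^ 2) / (1 - 2 * r * Real.cos (2 * Real.pi * x) + r ^ 2)) x) ∧
      (∀ x, Φ (x + 1) = Φ x + (1 + α)) ∧
      (∀ x, Complex.exp ((2 * Real.pi * Φ x : ℝ) * I) = Complex.exp ((2 * Real.pi * (α * x) : ℝ) * I) *
        ((Complex.exp ((2 * Real.pi * x : ℝ) * I) - r) / (1 - r * Complex.exp ((2 * Real.pi * x : ℝ) * I)))) ∧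
      (∀ x, (∃ n : ℤ, Φ x = n) ↔
        Real.sin (Real.pi * ((1 + α) * x)) = r * Real.sin (Real.pi * ((α - 1) * x))) := by
  have hpi := Real.pi_pos
  have hr2 : 0 < 1 - r ^ 2 := by
    have h := abs_lt.mp hr
    nlinarith [h.1, h.2]
  have hderiv : ∀ x, HasDerivAt (phPhi α r)
      (α + (1 - r ^ 2) / (1 - 2 * r * Real.cos (2 * Real.pi * x) + r ^ 2)) x :=
    fun x => phPhi_deriv α r x hr
  have hcont : Continuous (phPhi α r) :=
    continuous_iff_continuousAt.mpr fun x => (hderiv x).continuousAt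
  refine ⟨phPhi α r, ?_, ?_, ?_, hderiv, phPhi_period α r, fun x => ph_main α r x hr,
    fun x => ph_iff α r x hr⟩
  · simp [phPhi, phU]
  · apply strictMono_of_deriv_pos
    intro x
    rw [(hderiv x).deriv]
    have := phD_pos r (2 * Real.pi * x) hr
    positivity
  · have hb : ∀ x, |Real.arctan (phU r x) / Real.pi| ≤ 1 := by
      intro x
      rw [abs_div, abs_of_pos hpi, div_le_one hpi, abs_le]
      constructor
      · have := Real.neg_pi_div_two_lt_arctan (phU r x); linarith
      · have := Real.arctan_lt_pi_div_two (phU r x); linarith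
    apply hcont.surjective
    · have h1 : Tendsto (fun x : ℝ => (1 + α) * x + (-1)) atTop atTop :=
        tendsto_atTop_add_const_right _ _ (tendsto_id.const_mul_atTop (by linarith))
      refine tendsto_atTop_mono ?_ h1
      intro x
      have := (abs_le.mp (hb x)).1
      unfold phPhi
      linarith
    · have h1 : Tendsto (fun x : ℝ => (1 + α) * x + 1) atBot atBot :=
        tendsto_atBot_add_const_right _ _ (tendsto_id.const_mul_atBot (by linarith))
      refine tendsto_atBot_mono ?_ h1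
      intro x
      have := (abs_le.mp (hb x)).2
      unfold phPhi
      linarith

end FMT
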