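import Mathlib
import Pool.Agent.W418.FMT.Defs

open MeasureTheory Filter Topology Complex

namespace FMT

theorem p3d_z (x : ℝ) : HasDerivAt (fun x : ℝ => Complex.exp ((2 * Real.pi * x : ℝ) * I))
    (Complex.exp ((2 * Real.pi * x : ℝ) * I) * (2 * Real.pi * I)) x := by
  have h1 : HasDerivAt (fun x : ℝ => (((2 * Real.pi * x : ℝ) : ℂ)) * I)
      (((2 * Real.pi * 1 : ℝ) : ℂ) * I) x :=
    (((hasDerivAt_id x).const_mul (2 * Real.pi)).ofReal_comp).mul_const I
  have h2 := h1.cexp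
  convert h2 using 2
  push_cast
  ring

theorem p3d_E (k : ℕ) (x : ℝ) :
    HasDerivAt (fun x : ℝ => Complex.exp (-(2 * Real.pi * k * x : ℝ) * I))
    (Complex.exp (-(2 * Real.pi * k * x : ℝ) * I) * (-(2 * Real.pi * k * I))) x := by
  have h1 : HasDerivAt (fun x : ℝ => (-((2 * Real.pi * k * x : ℝ) : ℂ)) * I)
      ((-((2 * Real.pi * k * 1 : ℝ) : ℂ)) * I) x :=
    (((hasDerivAt_id x).const_mul (2 * Real.pi * k)).ofReal_comp).neg.mul_const I
  have h2 := h1.cexp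
  convert h2 using 2
  push_cast
  ring

theorem p3d_ne1 (r : ℝ) (hr : |r| < 1) (x : ℝ) :
    (1 : ℂ) - r * Complex.exp ((2 * Real.pi * x : ℝ) * I) ≠ 0 := by
  intro h
  have h1 : (1 : ℂ) = r * Complex.exp ((2 * Real.pi * x : ℝ) * I) := by linear_combination h
  have h2 := congrArg norm h1
  rw [norm_mul, Complex.norm_exp_ofReal_mul_I, mul_one, norm_one, Complex.norm_real,
    Real.norm_eq_abs] at h2
  linarith

theorem p3d_ne2 (r : ℝ) (hr : |r| < 1) (x : ℝ) :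
    Complex.exp ((2 * Real.pi * x : ℝ) * I) - r ≠ 0 := by
  intro h
  have h1 : Complex.exp ((2 * Real.pi * x : ℝ) * I) = r := by linear_combination h
  have h2 := congrArg norm h1
  rw [Complex.norm_exp_ofReal_mul_I, Complex.norm_real, Real.norm_eq_abs] at h2
  linarith

theorem p3d_den (r : ℝ) (x : ℝ) :
    (((1 - 2 * r * Real.cos (2 * Real.pi * x) + r ^ 2 : ℝ)) : ℂ) *
      Complex.exp ((2 * Real.pi * x : ℝ) * I) =
      (1 - r * Complex.exp ((2 * Real.pi * x : ℝ) * I)) *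
        (Complex.exp ((2 * Real.pi * x : ℝ) * I) - r) := by
  have h1 : Complex.exp (-((2 * Real.pi * x : ℝ) : ℂ) * I) *
      Complex.exp (((2 * Real.pi * x : ℝ) : ℂ) * I) = 1 := by
    rw [← Complex.exp_add]
    simp
  have h2 : ((Real.cos (2 * Real.pi * x) : ℝ) : ℂ) =
      (Complex.exp (((2 * Real.pi * x : ℝ) : ℂ) * I) +
        Complex.exp (-((2 * Real.pi * x : ℝ) : ℂ) * I)) / 2 := by
    rw [Complex.ofReal_cos, Complex.cos]
  have h3 : (((1 - 2 * r * Real.cos (2 * Real.pi * x) + r ^ 2 : ℝ)) : ℂ) =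
      1 - 2 * r * ((Real.cos (2 * Real.pi * x) : ℝ) : ℂ) + r ^ 2 := by push_cast; ring
  rw [h3, h2]
  generalize Complex.exp (((2 * Real.pi * x : ℝ) : ℂ) * I) = z at *
  generalize Complex.exp (-((2 * Real.pi * x : ℝ) : ℂ) * I) = w at *
  linear_combination (-(r : ℂ)) * h1

theorem p3d_b (r : ℝ) (hr : |r| < 1) (x : ℝ) :
    HasDerivAt (fun x : ℝ => (Complex.exp ((2 * Real.pi * x : ℝ) * I) - r) /
      (1 - r * Complex.exp ((2 * Real.pi * x : ℝ) * I)))
    (2 * Real.pi * I * (((1 - r ^ 2) / (1 - 2 * r * Real.cos (2 * Real.pi * x) + r ^ 2) : ℝ) : ℂ) *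
      ((Complex.exp ((2 * Real.pi * x : ℝ) * I) - r) /
      (1 - r * Complex.exp ((2 * Real.pi * x : ℝ) * I)))) x := by
  have h1 := p3d_z x
  have n1 := p3d_ne1 r hr x
  have n2 := p3d_ne2 r hr x
  have hd := p3d_den r x
  have hz : Complex.exp ((2 * Real.pi * x : ℝ) * I) ≠ 0 := Complex.exp_ne_zero _
  have h2 := (h1.sub_const (r : ℂ)).div ((h1.const_mul (r : ℂ)).const_sub 1) n1
  refine HasDerivAt.congr_deriv h2 ?_
  have e : (((1 - r ^ 2) / (1 - 2 * r * Real.cos (2 * Real.pi * x) + r ^ 2) : ℝ) : ℂ) =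
      (1 - (r : ℂ) ^ 2) / (((1 - 2 * r * Real.cos (2 * Real.pi * x) + r ^ 2 : ℝ)) : ℂ) := by
    push_cast
    ring
  rw [e]
  generalize (((1 - 2 * r * Real.cos (2 * Real.pi * x) + r ^ 2 : ℝ)) : ℂ) = D at *
  generalize Complex.exp ((2 * Real.pi * x : ℝ) * I) = z at *
  have hD : D ≠ 0 := by
    rintro rfl
    rw [zero_mul] at hd
    exact mul_ne_zero n1 n2 hd.symm
  have hD2 : D = (1 - r * z) * (z - r) / z := by
    rw [eq_div_iff hz]
    exact hd
  rw [hD2]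
  field_simp
  ring

theorem p3d_F (r : ℝ) (hr : |r| < 1) (m k : ℕ) (hm : 1 ≤ m) (x : ℝ) :
    HasDerivAt (fun x : ℝ => Complex.exp (-(2 * Real.pi * k * x : ℝ) * I) *
      ((Complex.exp ((2 * Real.pi * x : ℝ) * I) - r) /
        (1 - r * Complex.exp ((2 * Real.pi * x : ℝ) * I))) ^ m)
    (2 * Real.pi * I * (m *
      (((1 - r ^ 2) / (1 - 2 * r * Real.cos (2 * Real.pi * x) + r ^ 2) : ℝ) : ℂ) - k) *
      (Complex.exp (-(2 * Real.pi * k * x : ℝ) * I) *
      ((Complex.exp ((2 * Real.pi * x : ℝ) * I) - r) /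
        (1 - r * Complex.exp ((2 * Real.pi * x : ℝ) * I))) ^ m)) x := by
  have h1 := p3d_E k x
  have h2 := p3d_b r hr x
  have h3 := h1.mul (h2.pow m)
  refine HasDerivAt.congr_deriv h3 ?_
  obtain ⟨m, rfl⟩ : ∃ m', m = m' + 1 := ⟨m - 1, by omega⟩
  simp only [Pi.pow_apply, Nat.add_sub_cancel]
  rw [pow_succ]
  push_cast
  ring

theorem ibp (r α : ℝ) (hr : |r| < 1) (m k : ℕ) (hm : 1 ≤ m) :
    (∫ x in (0 : ℝ)..1, Complex.exp (-(2 * Real.pi * k * x : ℝ) * I) *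
      ((Complex.exp ((2 * Real.pi * x : ℝ) * I) - r) / (1 - r * Complex.exp ((2 * Real.pi * x : ℝ) * I))) ^ m
      * ((α + (1 - r ^ 2) / (1 - 2 * r * Real.cos (2 * Real.pi * x) + r ^ 2) : ℝ) : ℂ)) =
    ((α + k / m : ℝ) : ℂ) * ∫ x in (0 : ℝ)..1, Complex.exp (-(2 * Real.pi * k * x : ℝ) * I) *
      ((Complex.exp ((2 * Real.pi * x : ℝ) * I) - r) / (1 - r * Complex.exp ((2 * Real.pi * x : ℝ) * I))) ^ m := by
  have hF := p3d_F r hr m k hm
  have hm0 : (m : ℂ) ≠ 0 := by exact_mod_cast (by omega : m ≠ 0)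
  have hpi : (Real.pi : ℂ) ≠ 0 := by exact_mod_cast Real.pi_ne_zero
  have hcF : Continuous (fun x : ℝ => Complex.exp (-(2 * Real.pi * k * x : ℝ) * I) *
      ((Complex.exp ((2 * Real.pi * x : ℝ) * I) - r) /
        (1 - r * Complex.exp ((2 * Real.pi * x : ℝ) * I))) ^ m) :=
    continuous_iff_continuousAt.2 fun x => (hF x).continuousAt
  have hden : ∀ x : ℝ, 1 - 2 * r * Real.cos (2 * Real.pi * x) + r ^ 2 ≠ 0 := by
    intro x h
    have hd := p3d_den r x
    rw [h, Complex.ofReal_zero, zero_mul] at hd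
    exact mul_ne_zero (p3d_ne1 r hr x) (p3d_ne2 r hr x) hd.symm
  have hcP : Continuous (fun x : ℝ =>
      (1 - r ^ 2) / (1 - 2 * r * Real.cos (2 * Real.pi * x) + r ^ 2)) :=
    continuous_const.div (by fun_prop) hden
  have hcP' : Continuous (fun x : ℝ =>
      (((1 - r ^ 2) / (1 - 2 * r * Real.cos (2 * Real.pi * x) + r ^ 2) : ℝ) : ℂ)) :=
    Complex.continuous_ofReal.comp hcP
  have hcD : Continuous (fun x : ℝ => 2 * Real.pi * I * (m *
      (((1 - r ^ 2) / (1 - 2 * r * Real.cos (2 * Real.pi * x) + r ^ 2) : ℝ) : ℂ) - k) *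
      (Complex.exp (-(2 * Real.pi * k * x : ℝ) * I) *
      ((Complex.exp ((2 * Real.pi * x : ℝ) * I) - r) /
        (1 - r * Complex.exp ((2 * Real.pi * x : ℝ) * I))) ^ m)) :=
    (continuous_const.mul ((continuous_const.mul hcP').sub continuous_const)).mul hcF
  have hint := intervalIntegral.integral_eq_sub_of_hasDerivAt (a := 0) (b := 1)
    (fun x _ => hF x) (hcD.intervalIntegrable 0 1)
  have hz1 : Complex.exp ((2 * Real.pi * (1 : ℝ) : ℝ) * I) = 1 := by
    have := Complex.exp_two_pi_mul_I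
    push_cast
    rw [mul_one]
    exact this
  have hz0 : Complex.exp ((2 * Real.pi * (0 : ℝ) : ℝ) * I) = 1 := by simp
  have hE1 : Complex.exp (-(2 * Real.pi * k * (1 : ℝ) : ℝ) * I) = 1 := by
    have h := Complex.exp_int_mul_two_pi_mul_I (-(k : ℤ))
    rw [← h]
    congr 1
    push_cast
    ring
  have hE0 : Complex.exp (-(2 * Real.pi * k * (0 : ℝ) : ℝ) * I) = 1 := by simp
  rw [hz1, hz0, hE1, hE0, sub_self] at hint
  have key : ∀ x : ℝ, Complex.exp (-(2 * Real.pi * k * x : ℝ) * I) *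
      ((Complex.exp ((2 * Real.pi * x : ℝ) * I) - r) / (1 - r * Complex.exp ((2 * Real.pi * x : ℝ) * I))) ^ m
      * ((α + (1 - r ^ 2) / (1 - 2 * r * Real.cos (2 * Real.pi * x) + r ^ 2) : ℝ) : ℂ) =
      ((α + k / m : ℝ) : ℂ) * (Complex.exp (-(2 * Real.pi * k * x : ℝ) * I) *
      ((Complex.exp ((2 * Real.pi * x : ℝ) * I) - r) / (1 - r * Complex.exp ((2 * Real.pi * x : ℝ) * I))) ^ m) +
      (1 / (2 * Real.pi * I * m)) * (2 * Real.pi * I * (m *
      (((1 - r ^ 2) / (1 - 2 * r * Real.cos (2 * Real.pi * x) + r ^ 2) : ℝ) : ℂ) - k) *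
      (Complex.exp (-(2 * Real.pi * k * x : ℝ) * I) *
      ((Complex.exp ((2 * Real.pi * x : ℝ) * I) - r) /
        (1 - r * Complex.exp ((2 * Real.pi * x : ℝ) * I))) ^ m)) := by
    intro x
    rw [Complex.ofReal_add, Complex.ofReal_add]
    generalize (((1 - r ^ 2) / (1 - 2 * r * Real.cos (2 * Real.pi * x) + r ^ 2) : ℝ) : ℂ) = P
    generalize Complex.exp (-(2 * Real.pi * k * x : ℝ) * I) *
      ((Complex.exp ((2 * Real.pi * x : ℝ) * I) - r) /
        (1 - r * Complex.exp ((2 * Real.pi * x : ℝ) * I))) ^ m = F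
    have hI : I ≠ 0 := Complex.I_ne_zero
    push_cast
    field_simp
    ring
  rw [intervalIntegral.integral_congr (fun x _ => key x),
    intervalIntegral.integral_add ((hcF.const_mul _).intervalIntegrable 0 1)
      ((hcD.const_mul _).intervalIntegrable 0 1),
    intervalIntegral.integral_const_mul, intervalIntegral.integral_const_mul, hint, mul_zero,
    add_zero]

end FMT
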