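import Mathlib
import Pool.Agent.W418.FMT.Defs

set_option autoImplicit false

open MeasureTheory Filter Topology Complex

namespace FMT

namespace P4

/-- the difference operator -/
noncomputable def D (a : ℝ) (F : ℝ → ℂ) : ℝ → ℂ := fun x => F x - F (x - a)

/-- iterated differences of the indicator of `[0, ε)` -/
noncomputable def fD (ε : ℝ) : List ℝ → ℝ → ℂ
  | [] => (Set.Ico (0 : ℝ) ε).indicator fun _ => 1
  | a :: l => D a (fD ε l)

theorem exists_eps (l : List ℝ) (hl : ∀ a ∈ l, 0 < a) : ∃ ε : ℝ, 0 < ε ∧ ∀ a ∈ l, ε ≤ a := by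
  induction l with
  | nil => exact ⟨1, one_pos, by simp⟩
  | cons a l ih =>
    obtain ⟨ε, h1, h2⟩ := ih fun b hb => hl b (List.mem_cons_of_mem _ hb)
    refine ⟨min a ε, lt_min (hl a (by simp)) h1, ?_⟩
    intro b hb
    rcases List.mem_cons.1 hb with rfl | hb
    · exact min_le_left _ _
    · exact (min_le_right _ _).trans (h2 b hb)

theorem fD_facts (ε : ℝ) (hε : 0 < ε) (l : List ℝ) (hl : ∀ a ∈ l, ε ≤ a) :
    Measurable (fD ε l) ∧ (∃ C : ℝ, ∀ x, ‖fD ε l x‖ ≤ C) ∧
    (∃ M : ℝ, ∀ x, fD ε l x ≠ 0 → 0 ≤ x ∧ x ≤ M) ∧ ∀ x, 0 ≤ x → x < ε → fD ε l x = 1 := by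
  induction l with
  | nil =>
    refine ⟨measurable_const.indicator measurableSet_Ico, ⟨1, fun x => ?_⟩, ⟨ε, fun x hx => ?_⟩,
      fun x h0 h1 => ?_⟩
    · unfold fD
      by_cases h : x ∈ Set.Ico (0 : ℝ) ε
      · rw [Set.indicator_of_mem h]
        simp
      · rw [Set.indicator_of_notMem h]
        simp
    · unfold fD at hx
      by_cases h : x ∈ Set.Ico (0 : ℝ) ε
      · exact ⟨h.1, h.2.le⟩
      · rw [Set.indicator_of_notMem h] at hx
        exact absurd rfl hx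
    · unfold fD
      rw [Set.indicator_of_mem (show x ∈ Set.Ico (0 : ℝ) ε from ⟨h0, h1⟩)]
  | cons a l ih =>
    obtain ⟨i1, ⟨C, i2⟩, ⟨M, i3⟩, i4⟩ := ih fun b hb => hl b (List.mem_cons_of_mem _ hb)
    have ha : ε ≤ a := hl a (by simp)
    refine ⟨?_, ⟨C + C, fun x => ?_⟩, ⟨max M (M + a), fun x hx => ?_⟩, fun x h0 h1 => ?_⟩
    · exact i1.sub (i1.comp (measurable_id.sub_const a))
    · exact (norm_sub_le _ _).trans (add_le_add (i2 _) (i2 _))
    · by_cases h : fD ε l x = 0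
      · have h5 : fD ε l (x - a) ≠ 0 := by
          intro h6
          apply hx
          show fD ε l x - fD ε l (x - a) = 0
          rw [h, h6, sub_zero]
        have h7 := i3 _ h5
        exact ⟨by linarith [h7.1], le_max_of_le_right (by linarith [h7.2])⟩
      · have h7 := i3 _ h
        exact ⟨h7.1, le_max_of_le_left h7.2⟩
    · show fD ε l x - fD ε l (x - a) = 1
      have h5 : fD ε l (x - a) = 0 := by
        by_contra h6
        have h7 := i3 _ h6
        linarith [h7.1]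
      rw [i4 x h0 h1, h5, sub_zero]

theorem summ (F : ℝ → ℂ) (M a : ℝ) (ha : 0 < a) (hF : ∀ x, F x ≠ 0 → 0 ≤ x ∧ x ≤ M) (x : ℝ) :
    Summable fun k : ℤ => F (x - a * k) := by
  refine summable_of_hasFiniteSupport ?_
  refine (Set.finite_Icc ⌊(x - M) / a⌋ ⌈x / a⌉).subset ?_
  intro k hk
  have h1 := hF _ hk
  constructor
  · have h2 : (x - M) / a ≤ k := by
      rw [div_le_iff₀ ha]
      linarith [h1.2]
    have h3 : ((⌊(x - M) / a⌋ : ℤ) : ℝ) ≤ k := (Int.floor_le _).trans h2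
    exact_mod_cast h3
  · have h2 : (k : ℝ) ≤ x / a := by
      rw [le_div_iff₀ ha]
      linarith [h1.1]
    have h3 : (k : ℝ) ≤ ((⌈x / a⌉ : ℤ) : ℝ) := h2.trans (Int.le_ceil _)
    exact_mod_cast h3

theorem hasSum_D_self (F : ℝ → ℂ) (M a : ℝ) (ha : 0 < a) (hF : ∀ x, F x ≠ 0 → 0 ≤ x ∧ x ≤ M)
    (x : ℝ) : HasSum (fun k : ℤ => D a F (x - a * k)) 0 := by
  have h1 := (summ F M a ha hF x).hasSum
  have h2 : HasSum (fun k : ℤ => F (x - a * ((k + 1 : ℤ) : ℝ))) (∑' k : ℤ, F (x - a * k)) := by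
    have h3 := (Equiv.addRight (1 : ℤ)).hasSum_iff (f := fun k : ℤ => F (x - a * (k : ℝ)))
      (a := ∑' k : ℤ, F (x - a * k))
    exact h3.2 h1
  have h4 := h1.sub h2
  rw [sub_self] at h4
  refine h4.congr_fun ?_
  intro k
  unfold D
  push_cast
  congr 2
  ring

theorem hasSum_fD (ε : ℝ) (hε : 0 < ε) (l : List ℝ) (hl : ∀ a ∈ l, ε ≤ a) :
    ∀ a ∈ l, ∀ x : ℝ, HasSum (fun k : ℤ => fD ε l (x - a * k)) 0 := by
  induction l with
  | nil => simp
  | cons b l ih =>
    have hl' : ∀ a ∈ l, ε ≤ a := fun c hc => hl c (List.mem_cons_of_mem _ hc)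
    obtain ⟨_, _, ⟨M, i3⟩, _⟩ := fD_facts ε hε l hl'
    intro a ha x
    rcases List.mem_cons.1 ha with rfl | ha
    · exact hasSum_D_self (fD ε l) M a (hε.trans_le (hl a (by simp))) i3 x
    · have h1 := ih hl' a ha x
      have h2 := ih hl' a ha (x - b)
      have h3 := h1.sub h2
      rw [sub_zero] at h3
      refine h3.congr_fun ?_
      intro k
      show fD ε l (x - a * k) - fD ε l (x - a * k - b) = _
      congr 2
      ring

end P4

theorem not_periodic (L : Set ℝ)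
    (h : ∀ f : ℝ → ℂ, Integrable f → volume {x | f x ≠ 0} < ⊤ → ∀ w : ℂ,
      (∀ᵐ x : ℝ, Summable (fun l : L => f (x - l)) ∧ ∑' l : L, f (x - l) = w) → f =ᵐ[volume] 0) :
    ¬ ∃ (n : ℕ) (a b : Fin n → ℝ), (∀ i, 0 < a i) ∧
      (Pairwise fun i j => Disjoint {x : ℝ | ∃ k : ℤ, x = a i * k + b i} {x : ℝ | ∃ k : ℤ, x = a j * k + b j}) ∧
      L = ⋃ i, {x : ℝ | ∃ k : ℤ, x = a i * k + b i} := by
  rintro ⟨n, a, b, ha, hdis, hL⟩
  obtain ⟨ε, hε, hεa⟩ := P4.exists_eps (List.ofFn a) (by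
    intro c hc
    rw [List.mem_ofFn] at hc
    obtain ⟨i, rfl⟩ := hc
    exact ha i)
  obtain ⟨f1, ⟨C, f2⟩, ⟨M, f3⟩, f4⟩ := P4.fD_facts ε hε (List.ofFn a) hεa
  have f5 := P4.hasSum_fD ε hε (List.ofFn a) hεa
  set f := P4.fD ε (List.ofFn a) with hf
  have hsub : {x | f x ≠ 0} ⊆ Set.Icc 0 M := fun x hx => f3 x hx
  have hvol : volume {x | f x ≠ 0} < ⊤ := (measure_mono hsub).trans_lt measure_Icc_lt_top
  have hint : Integrable f := by
    have h1 : IntegrableOn f (Set.Icc 0 M) :=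
      Measure.integrableOn_of_bounded (M := C) measure_Icc_lt_top.ne f1.aestronglyMeasurable
        (Eventually.of_forall f2)
    refine (integrableOn_iff_integrable_of_support_subset ?_).1 h1
    exact hsub
  have hsum : ∀ x : ℝ, HasSum (fun l : L => f (x - l)) 0 := by
    intro x
    subst hL
    have h1 : ∀ i : Fin n, HasSum ((fun y : ℝ => f (x - y)) ∘
        ((↑) : {y : ℝ | ∃ k : ℤ, y = a i * k + b i} → ℝ)) 0 := by
      intro i
      have h2 : {y : ℝ | ∃ k : ℤ, y = a i * k + b i} = Set.range fun k : ℤ => a i * k + b i := by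
        ext y
        simp only [Set.mem_ofPred_eq, Set.mem_range]
        constructor
        · rintro ⟨k, hk⟩
          exact ⟨k, hk.symm⟩
        · rintro ⟨k, hk⟩
          exact ⟨k, hk.symm⟩
      have h3 : Function.Injective fun k : ℤ => a i * (k : ℝ) + b i := by
        intro k k' hk
        simp only [add_left_inj] at hk
        have := mul_left_cancel₀ (ha i).ne' hk
        exact_mod_cast this
      rw [h2]
      refine (h3.hasSum_range_iff (f := fun y : ℝ => f (x - y))).2 ?_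
      have h4 := f5 (a i) (by rw [List.mem_ofFn]; exact ⟨i, rfl⟩) (x - b i)
      refine h4.congr_fun ?_
      intro k
      simp only [Function.comp]
      congr 1
      ring
    have h5 := hasSum_sum_disjoint (f := fun y : ℝ => f (x - y)) (Finset.univ : Finset (Fin n))
      (t := fun i => {y : ℝ | ∃ k : ℤ, y = a i * k + b i}) (a := fun _ => (0 : ℂ))
      (fun i _ j _ hij => hdis hij) (fun i _ => h1 i)
    simp only [Finset.sum_const_zero] at h5
    have h6 : (⋃ i ∈ (Finset.univ : Finset (Fin n)), {y : ℝ | ∃ k : ℤ, y = a i * k + b i}) =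
        ⋃ i, {y : ℝ | ∃ k : ℤ, y = a i * k + b i} := by simp
    rw [h6] at h5
    exact h5
  have h0 := h f hint hvol 0 (Eventually.of_forall fun x => ⟨(hsum x).summable, (hsum x).tsum_eq⟩)
  have h1 : volume (Set.Ico (0 : ℝ) ε) = 0 := by
    refine measure_mono_null ?_ h0
    intro x hx
    show ¬ (f x = (0 : ℝ → ℂ) x)
    rw [f4 x hx.1 hx.2]
    simp
  rw [Real.volume_Ico, sub_zero, ENNReal.ofReal_eq_zero] at h1
  linarith

end FMT
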